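import Pool.Agent.MP_f0a921_al.ExT2

section

/-! Kernel evaluation of the character table checker. -/

namespace Pool.Agent.MP_f0a921_al

theorem fchkA1 : allB 6 (fun i => fchk tbA (10 + i)) = true := by decide +kernel

theorem fchkA16 : fchk tbA 16 = true := by decide +kernel

theorem fchkA17 : fchk tbA 17 = true := by decide +kernel

end Pool.Agent.MP_f0a921_al

end

section

/-! Kernel evaluation of the character table checker. -/

namespace Pool.Agent.MP_f0a921_al

theorem fchkA19 : fchk tbA 19 = true := by decide +kernel

end Pool.Agent.MP_f0a921_al

end
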