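import Pool.Agent.MP_f0a921_al.Dim
import Pool.Agent.MP_f0a921_al.ExDef
import Pool.Agent.MP_f0a921_al.NumDef

section

/-! Expansion along the first row; characters close to the trivial one. -/

namespace Pool.Agent.MP_f0a921_al
open Finset Function

variable {n : ℕ}

theorem U_cons (r B : ℕ) (G : (Fin (n + 1) → ℕ) → ℤ) (γ : Fin n → ℕ) :
    U r G (Fin.cons B γ) = (if r ≤ B then G (Fin.cons (B - r) γ) else 0) +
      U r (fun γ' => G (Fin.cons B γ')) γ := by
  unfold U
  rw [Fin.sum_univ_succ]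
  simp only [Fin.cons_zero, Fin.cons_succ, Fin.update_cons_zero, Fin.cons_update]

theorem U_msum {ι : Type} (r : ℕ) (M : Multiset ι) (F : ι → (Fin n → ℕ) → ℤ) (γ : Fin n → ℕ) :
    U r (fun γ' => (M.map fun p => F p γ').sum) γ = (M.map fun p => U r (F p) γ).sum := by
  induction M using Multiset.induction_on with
  | empty => simp [U]
  | cons a M ih =>
    simp only [Multiset.map_cons, Multiset.sum_cons, ← ih]
    unfold U
    rw [← sum_add_distrib]
    exact sum_congr rfl fun i _ => by split_ifs <;> simp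

theorem FU_row (g : (Fin (n + 1) → ℕ) → ℤ) (μ : Multiset ℕ) (B : ℕ) (γ : Fin n → ℕ) :
    FU g μ (Fin.cons B γ) = (μ.antidiagonal.map fun p => if p.1.sum ≤ B then
      FU (fun γ' => g (Fin.cons (B - p.1.sum) γ')) p.2 γ else 0).sum := by
  induction μ using Multiset.induction_on generalizing B γ with
  | empty => simp
  | cons r μ ih =>
    rw [FU_cons, U_cons]
    simp only [ih]
    rw [U_msum, Multiset.antidiagonal_cons, Multiset.map_add, Multiset.sum_add, add_comm,
      Multiset.map_map, Multiset.map_map]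
    congr 1
    · congr 1
      refine Multiset.map_congr rfl fun p _ => ?_
      simp only [comp_apply, Prod.map_fst, id, Prod.map_snd, FU_cons]
      split_ifs
      · rfl
      · simp [U]
    · split_ifs with h
      · congr 1
        refine Multiset.map_congr rfl fun p _ => ?_
        simp only [comp_apply, Prod.map_fst, id, Prod.map_snd, Multiset.sum_cons]
        rw [show B - (r + p.1.sum) = B - r - p.1.sum by omega]
        congr 1
        apply propext; omega
      · symm
        refine Multiset.sum_eq_zero fun x hx => ?_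
        obtain ⟨p, _, rfl⟩ := Multiset.mem_map.mp hx
        simp only [comp_apply, Prod.map_fst, Multiset.sum_cons]
        rw [if_neg (by omega)]

def hc (c : ℕ) (Y : Finset ℕ) : ℤ := ee c Y * vac (insert c Y)

theorem image_cons (c : ℕ) (γ : Fin n → ℕ) :
    image (Fin.cons c γ : Fin (n + 1) → ℕ) univ = insert c (image γ univ) := by
  rw [Fin.univ_succ, cons_eq_insert, image_insert, map_eq_image, image_image]
  rfl

theorem toV_cons (c : ℕ) (γ : Fin n → ℕ) :
    toV vac (Fin.cons c γ : Fin (n + 1) → ℕ) = toV (hc c) γ := by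
  unfold toV hc
  rw [sg_cons, image_cons]
  by_cases h : Injective γ
  · rw [ee, prod_image fun i _ j _ e => h e]; ring
  · rw [sg_anti.zero h]; simp

theorem Row.expand {X X' : Finset ℕ} {a : ℕ} (h : Row X X' a) (μ : Multiset ℕ) :
    (-1) ^ X'.card * chi μ X = (μ.antidiagonal.map fun p => if p.1.sum ≤ X'.card + a then
      T (hc (X'.card + a - p.1.sum)) p.2 X' else 0).sum := by
  set γ := X'.orderEmbOfFin rfl
  have e := FU_row (toV vac) μ (X'.card + a) γ
  simp only [toV_cons] at e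
  rw [← Psi.eq_1, Psi_eq_chi, image_cons, image_emb, ← h.1, sg_cons, sg_mono γ.strictMono,
    mul_one] at e
  unfold T
  rw [← e]
  congr 1
  rw [prod_congr rfl (g := fun _ => -1) fun j _ => Int.sign_eq_neg_one_of_neg (by
    have := h.2 _ (orderEmbOfFin_mem X' rfl j)
    change γ j < _ at this
    omega)]
  simp

theorem T_congr {g g' : Finset ℕ → ℤ} {X : Finset ℕ} (h : ∀ Y, Y.card = X.card → g Y = g' Y)
    (μ : Multiset ℕ) : T g μ X = T g' μ X := by
  unfold T
  congr 1
  funext β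
  by_cases hβ : Injective β
  · unfold toV
    rw [h _ (by rw [card_image_of_injective _ hβ, card_univ, Fintype.card_fin])]
  · rw [(toV_anti g).zero hβ, (toV_anti g').zero hβ]

theorem hc_ne {c : ℕ} {Y : Finset ℕ} (h : hc c Y ≠ 0) :
    c ≤ Y.card ∧ Wt Y (Y.card - c) ∧ c ∉ Y := by
  have h1 : c ∉ Y := fun hm => left_ne_zero_of_mul h (prod_eq_zero hm (by simp))
  have h2 := right_ne_zero_of_mul h
  unfold vac at h2
  split_ifs at h2 with h3
  swap
  · exact absurd rfl h2
  rw [card_insert_of_notMem h1] at h3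
  have h4 : c ∈ range (Y.card + 1) := h3 ▸ mem_insert_self _ _
  have h5 := Wt_range (Y.card + 1)
  rw [← h3] at h5
  unfold Wt at h5 ⊢
  rw [card_insert_of_notMem h1, sum_insert h1, Nat.choose_succ_succ', Nat.choose_one_right] at h5
  have := mem_range.mp h4
  simp only [Nat.reduceAdd] at h5
  exact ⟨by omega, by omega, h1⟩

theorem hc_abs (c : ℕ) (Y : Finset ℕ) : |hc c Y| ≤ 1 := by
  unfold hc ee vac
  rw [abs_mul, abs_prod]
  refine mul_le_one₀ (prod_le_one (fun _ _ => abs_nonneg _) fun y _ => ?_) (abs_nonneg _) ?_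
  · rcases lt_trichotomy ((y : ℤ) - c) 0 with h | h | h
    · rw [Int.sign_eq_neg_one_of_neg h]; simp
    · rw [h]; simp
    · rw [Int.sign_eq_one_of_pos h]; simp
  · split_ifs <;> simp

theorem T_hc_supp {c : ℕ} {A : Multiset ℕ} (hA : ∀ r ∈ A, 0 < r) {Y : Finset ℕ}
    (h : T (hc c) A Y ≠ 0) :
    c ≤ Y.card ∧ Wt Y (A.sum + (Y.card - c)) ∧ ∀ a l, Box Y a l → Y.card ≤ c + l := by
  refine T_supp (fun s Y => c ≤ Y.card ∧ Wt Y (s + (Y.card - c)) ∧
    ∀ a l, Box Y a l → Y.card ≤ c + l) (hc c) ?_ ?_ A hA Y h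
  · intro Y hY
    obtain ⟨h1, h2, h3⟩ := hc_ne hY
    refine ⟨h1, by simpa using h2, fun a l hB => ?_⟩
    by_contra hlt
    exact h3 (hB.2 c (by omega))
  · intro X b r s hb hr hn ⟨h1, h2, h3⟩
    rw [card_mv hb hn] at h1 h2 h3
    exact ⟨h1, add_assoc r s _ ▸ Wt.of_mv hb hr hn h2, fun a l hB => h3 a l (hB.mv hb hn)⟩

theorem T_hc_le {c k : ℕ} {A : Multiset ℕ} (hA : ∀ r ∈ A, 0 < r) {Y : Finset ℕ} (hw : Wt Y k) :
    |T (hc c) A Y| ≤ dm k Y := by
  by_cases h : T (hc c) A Y = 0
  · rw [h]; exact dm_nonneg _ _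
  obtain ⟨-, h2, -⟩ := T_hc_supp hA h
  rw [hw.unique h2, ← iter_vac, iterate_add_apply, iter_vac,
    T_congr (g' := fun Z => if Z.card = Y.card then hc c Z else 0) fun Z hZ => by rw [if_pos hZ]]
  refine T_abs_le (fun Z => ?_) hA Y
  split_ifs with e
  · by_cases h0 : hc c Z = 0
    · rw [h0]; exact dm_nonneg _ _
    · exact (hc_abs c Z).trans (dm_pos (e ▸ (hc_ne h0).2.1))
  · exact dm_nonneg _ _

/-- number of sub-multisets of small sum -/
def cum (μ : Multiset ℕ) (w : ℕ) : ℕ := μ.powerset.countP fun A => A.sum ≤ w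

theorem msum_abs_le {ι : Type} (M : Multiset ι) (F : ι → ℤ) (Q : ι → Prop) [DecidablePred Q]
    (D : ℤ) (h1 : ∀ p ∈ M, |F p| ≤ D) (h2 : ∀ p ∈ M, F p ≠ 0 → Q p) :
    |(M.map F).sum| ≤ D * M.countP Q := by
  induction M using Multiset.induction_on with
  | empty => simp
  | cons a M ih =>
    have := ih (fun p hp => h1 p (Multiset.mem_cons_of_mem hp))
      (fun p hp => h2 p (Multiset.mem_cons_of_mem hp))
    have h3 := h1 a (Multiset.mem_cons_self _ _)
    have h4 := h2 a (Multiset.mem_cons_self _ _)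
    rw [Multiset.map_cons, Multiset.sum_cons, Multiset.countP_cons]
    refine (abs_add_le _ _).trans ?_
    split_ifs with h
    · push_cast; linarith
    · rw [not_not.mp fun h' => h (h4 h')]; simpa using this

theorem Row.bound {X X' : Finset ℕ} {a k : ℕ} (h : Row X X' a) (hk : Wt X' k) (hB : Box X a a)
    {μ : Multiset ℕ} (hμ : ∀ r ∈ μ, 0 < r) :
    |chi μ X| ≤ dm k X' * cum μ (min k (2 * a - 1)) := by
  have e : |chi μ X| = |(-1) ^ X'.card * chi μ X| := by simp [abs_mul]
  rw [e, h.expand]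
  have hp : ∀ p ∈ μ.antidiagonal, ∀ r ∈ p.2, 0 < r := fun p hp r hr =>
    hμ r (Multiset.mem_antidiagonal.mp hp ▸ Multiset.mem_add.mpr (Or.inr hr))
  have h1 : ∀ p ∈ μ.antidiagonal, |if p.1.sum ≤ X'.card + a then
      T (hc (X'.card + a - p.1.sum)) p.2 X' else 0| ≤ dm k X' := by
    intro p hp'
    split_ifs
    · exact T_hc_le (hp p hp') hk
    · exact dm_nonneg _ _
  unfold cum
  rcases le_total k (2 * a - 1) with hm | hm
  · rw [min_eq_left hm, ← Multiset.antidiagonal_map_snd, Multiset.countP_map,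
      ← Multiset.countP_eq_card_filter]
    refine msum_abs_le _ _ _ _ h1 fun p hp' hne => ?_
    split_ifs at hne
    · have := hk.unique (T_hc_supp (hp p hp') hne).2.1
      omega
    · exact absurd rfl hne
  · rw [min_eq_right hm, ← Multiset.antidiagonal_map_fst, Multiset.countP_map,
      ← Multiset.countP_eq_card_filter]
    refine msum_abs_le _ _ _ _ h1 fun p hp' hne => ?_
    split_ifs at hne
    · have := (T_hc_supp (hp p hp') hne).2.2 _ _ (h.box hB).2
      omega
    · exact absurd rfl hne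

theorem cum_zero (w : ℕ) : cum 0 w = 1 := by
  simp [cum, Multiset.countP_eq_card_filter, Multiset.filter_singleton]

theorem cum_cons (r : ℕ) (μ : Multiset ℕ) (w : ℕ) :
    cum (r ::ₘ μ) w = cum μ w + if r ≤ w then cum μ (w - r) else 0 := by
  unfold cum
  rw [Multiset.powerset_cons, Multiset.countP_add, Multiset.countP_map,
    ← Multiset.countP_eq_card_filter]
  congr 1
  simp only [Multiset.sum_cons]
  split_ifs with h
  · exact Multiset.countP_congr rfl fun A _ => propext (by omega)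
  · exact Multiset.countP_eq_zero.mpr fun A _ => by omega

theorem cum_mono (μ : Multiset ℕ) {w w' : ℕ} (h : w ≤ w') : cum μ w ≤ cum μ w' := by
  unfold cum
  rw [Multiset.countP_eq_card_filter, Multiset.countP_eq_card_filter]
  exact Multiset.card_le_card (Multiset.monotone_filter_right _ fun A hA => le_trans hA h)

theorem cum_cons_le {μ ν : Multiset ℕ} (h : ∀ w, cum μ w ≤ cum ν w) {r s : ℕ} (hrs : s ≤ r)
    (w : ℕ) : cum (r ::ₘ μ) w ≤ cum (s ::ₘ ν) w := by
  rw [cum_cons, cum_cons]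
  refine add_le_add (h w) ?_
  split_ifs with h1 h2
  · exact (h _).trans (cum_mono _ (by omega))
  · omega
  · omega
  · rfl

theorem cum_le_rep (ν ρ : Multiset ℕ) {p t : ℕ} (hρ : ∀ r ∈ ρ, p ≤ r) (ht : ρ.card ≤ t) (w : ℕ) :
    cum (ν + ρ) w ≤ cum (ν + Multiset.replicate t p) w := by
  induction t generalizing ρ w with
  | zero =>
    rw [Multiset.card_eq_zero.mp (Nat.le_zero.mp ht)]; rfl
  | succ t ih =>
    rw [Multiset.replicate_succ, Multiset.add_cons]
    induction ρ using Multiset.induction_on with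
    | empty => rw [cum_cons]; exact (ih 0 hρ (by simp) w).trans (Nat.le_add_right _ _)
    | cons r ρ _ =>
      rw [Multiset.add_cons]
      exact cum_cons_le (ih ρ (fun x hx => hρ x (Multiset.mem_cons_of_mem hx))
        (by simpa using ht)) (hρ r (Multiset.mem_cons_self _ _)) w

/-! ### small levels -/

theorem poly_sum {μ : Multiset ℕ} (hμ : ∀ r ∈ μ, 0 < r) (G : Multiset ℕ → ℤ)
    (hG : ∀ A, 3 < A.sum → G A = 0) :
    (μ.powerset.map G).sum = G 0 + μ.count 1 * G {1} + (μ.count 1).choose 2 * G {1, 1} +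
      μ.count 2 * G {2} + (μ.count 1).choose 3 * G {1, 1, 1} +
      μ.count 1 * μ.count 2 * G {1, 2} + μ.count 3 * G {3} := by
  induction μ using Multiset.induction_on generalizing G with
  | empty => simp
  | cons r μ ih =>
    have hr := hμ r (Multiset.mem_cons_self _ _)
    have hμ' : ∀ x ∈ μ, 0 < x := fun x hx => hμ x (Multiset.mem_cons_of_mem hx)
    rw [Multiset.powerset_cons, Multiset.map_add, Multiset.sum_add, Multiset.map_map, ih hμ' G hG,
      ih hμ' (G ∘ Multiset.cons r) (fun A hA => hG _ (by rw [Multiset.sum_cons]; omega))]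
    simp only [comp_apply]
    have z : ∀ A : Multiset ℕ, 3 < r + A.sum → G (r ::ₘ A) = 0 := fun A hA =>
      hG _ (by rwa [Multiset.sum_cons])
    rw [z {1, 1, 1} (by simp; omega), z {1, 2} (by simp; omega), z {3} (by simp; omega)]
    obtain rfl | rfl | rfl | h : r = 1 ∨ r = 2 ∨ r = 3 ∨ 3 < r := by omega
    · simp only [Multiset.count_cons_self, Multiset.count_cons_of_ne (show 2 ≠ 1 by decide),
        Multiset.count_cons_of_ne (show 3 ≠ 1 by decide), Nat.choose_succ_succ', Nat.choose_one_right,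
        Multiset.insert_eq_cons, Multiset.cons_zero, Nat.reduceAdd]
      push_cast; ring
    · rw [z {1, 1} (by simp), z {2} (by simp)]
      have : (2 ::ₘ {1} : Multiset ℕ) = {1, 2} := by decide
      simp only [Multiset.count_cons_self, Multiset.count_cons_of_ne (show 1 ≠ 2 by decide),
        Multiset.count_cons_of_ne (show 3 ≠ 2 by decide), this, Multiset.cons_zero]
      push_cast; ring
    · rw [z {1, 1} (by simp), z {2} (by simp), z {1} (by simp)]
      simp only [Multiset.count_cons_self, Multiset.count_cons_of_ne (show 1 ≠ 3 by decide),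
        Multiset.count_cons_of_ne (show 2 ≠ 3 by decide), Multiset.cons_zero]
      push_cast; ring
    · rw [z {1, 1} (by omega), z {2} (by omega), z {1} (by omega), z 0 (by omega),
        Multiset.count_cons_of_ne (by omega), Multiset.count_cons_of_ne (by omega),
        Multiset.count_cons_of_ne (by omega)]
      ring

def Tl (h : Finset ℕ → ℤ) : List ℕ → Finset ℕ → ℤ
  | [] => h
  | r :: l => Ub r (Tl h l)

theorem T_list (h : Finset ℕ → ℤ) (l : List ℕ) (hl : ∀ r ∈ l, 0 < r) : T h ↑l = Tl h l := by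
  induction l with
  | nil => funext X; exact T_zero h X
  | cons r l ih =>
    funext X
    rw [← Multiset.cons_coe, T_cons _ (hl r (by simp)), ih fun x hx => hl x (by simp [hx])]; rfl

def vals (k : ℕ) (Y : Finset ℕ) : List ℤ :=
  [[], [1], [1, 1], [2], [1, 1, 1], [1, 2], [3]].map fun l => - Tl (hc (3 - k + l.sum)) l Y

def PV (v : List ℤ) (μ : Multiset ℕ) : ℤ :=
  v.getD 0 0 + μ.count 1 * v.getD 1 0 + (μ.count 1).choose 2 * v.getD 2 0 +
    μ.count 2 * v.getD 3 0 + (μ.count 1).choose 3 * v.getD 4 0 +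
    μ.count 1 * μ.count 2 * v.getD 5 0 + μ.count 3 * v.getD 6 0

def LV : List (ℕ × List ℤ) :=
  [(0, [1, 0, 0, 0, 0, 0, 0]), (1, [-1, 1, 0, 0, 0, 0, 0]), (2, [0, -1, 1, 1, 0, 0, 0]),
    (2, [1, -1, 1, -1, 0, 0, 0]), (3, [0, 0, -1, -1, 1, 1, 1]), (3, [0, 1, -2, 0, 2, 0, -1]),
    (3, [-1, 1, -1, 1, 1, -1, 1])]

theorem vals_mem : ∀ Y ∈ powersetCard 3 (range 7), ∀ k ∈ range 4, ∑ x ∈ Y, x = 3 + k →
    (k, vals k Y) ∈ LV := by decide +kernel

theorem Row.small {X X' : Finset ℕ} {a k : ℕ} (h : Row X X' a) (hk : Wt X' k) (h3 : X'.card = 3)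
    (hk3 : k ≤ 3) {μ : Multiset ℕ} (hμ : ∀ r ∈ μ, 0 < r) (hs : μ.sum = a + k) :
    chi μ X = PV (vals k X') μ := by
  have e := h.expand μ
  rw [h3] at e
  obtain ⟨G, hG⟩ : ∃ G : Multiset ℕ → ℤ, ∀ A, G A =
      if A.sum ≤ 3 then T (hc (3 - k + A.sum)) A X' else 0 := ⟨_, fun _ => rfl⟩
  have e2 : (μ.antidiagonal.map fun p => if p.1.sum ≤ 3 + a then
      T (hc (3 + a - p.1.sum)) p.2 X' else 0) = μ.antidiagonal.map (G ∘ Prod.snd) := by
    refine Multiset.map_congr rfl fun p hp => ?_
    have hp' := Multiset.mem_antidiagonal.mp hp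
    have h1 : p.1.sum + p.2.sum = a + k := by rw [← Multiset.sum_add, hp', hs]
    rw [if_pos (by omega), show 3 + a - p.1.sum = 3 - k + p.2.sum by omega, comp_apply, hG]
    split_ifs with h2
    · rfl
    · by_contra hne
      have := T_hc_supp (fun r hr => hμ r (hp' ▸ Multiset.mem_add.mpr (Or.inr hr))) hne
      have := hk.unique this.2.1
      omega
  rw [e2, ← Multiset.map_map, Multiset.antidiagonal_map_snd,
    poly_sum hμ _ fun A hA => by rw [hG, if_neg (by omega)]] at e
  have key : ∀ l : List ℕ, (∀ r ∈ l, 0 < r) → l.sum ≤ 3 →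
      G ↑l = Tl (hc (3 - k + l.sum)) l X' := fun l h1 h2 => by
    rw [hG, Multiset.sum_coe, if_pos h2, T_list _ _ h1]
  have t0 : G 0 = _ := key [] (by simp) (by simp)
  have t1 : G {1} = _ := key [1] (by simp) (by simp)
  have t2 : G {1, 1} = _ := key [1, 1] (by simp) (by simp)
  have t3 : G {2} = _ := key [2] (by simp) (by simp)
  have t4 : G {1, 1, 1} = _ := key [1, 1, 1] (by simp) (by simp)
  have t5 : G {1, 2} = _ := key [1, 2] (by simp) (by simp)
  have t6 : G {3} = _ := key [3] (by simp) (by simp)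
  simp only [PV, vals, List.map, List.getD_cons_succ, List.getD_cons_zero]
  rw [← t0, ← t1, ← t2, ← t3, ← t4, ← t5, ← t6]
  linear_combination -e

theorem Wt.box {X : Finset ℕ} {d : ℕ} (hw : Wt X d) : Box X d d := by
  rcases Nat.eq_zero_or_pos d with h | h
  · subst h
    have := dm_zero hw
    simp only [dm, Multiset.replicate_zero, chi_zero, vac_eq_one] at this
    by_contra hn
    rw [if_neg hn] at this
    exact absurd this (by decide)
  · obtain ⟨Y, Y', s, hr, -, hwY, -, hs⟩ := reduce hw h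
    obtain ⟨k, rfl, -⟩ := hr.wt' hwY
    exact (hs _).mpr (by omega)

theorem levels {X : Finset ℕ} {d : ℕ} (hw : Wt X d) (hd : 0 < d) (hB : ¬ Box X (d - 4) (d - 4)) :
    ∃ p ∈ LV, (∀ a, Box X a a ↔ d - p.1 ≤ a) ∧
      ((∀ μ : Multiset ℕ, (∀ r ∈ μ, 0 < r) → μ.sum = d → chi μ X = PV p.2 μ) ∨
        ∀ μ : Multiset ℕ, (∀ r ∈ μ, 0 < r) → μ.sum = d → chi μ X = sm μ * PV p.2 μ) := by
  obtain ⟨Y, Y', s, hr, hY, hwY, ht, hs⟩ := reduce hw hd
  obtain ⟨k, rfl, hk⟩ := hr.wt' hwY
  rw [hs] at hB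
  have b1 : Box Y s 4 := by
    refine ⟨hY.1, fun x hx => ?_⟩
    rw [hr.card] at hx
    rw [hr.1]
    exact mem_insert_of_mem (hk.box.2 x (by omega))
  obtain ⟨Z, hZ, hsim⟩ := exists_sim b1 le_rfl
  obtain ⟨Z', s', hr'⟩ := exists_row (X := Z) (card_pos.mp (by omega))
  have b2 := (hsim.2.2 _ _).mp b1
  have e1 : s' = s := le_antisymm (hr'.box b2).1 (hr.box ((hsim.2.2 _ _).mpr (hr'.box' b2))).1
  subst e1
  obtain ⟨k', e2, hk'⟩ := hr'.wt' ((hsim.2.1 _).mp hwY)
  obtain rfl : k = k' := by omega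
  have c3 : Z'.card = 3 := by have := hr'.card; omega
  have hk'' := hk'
  unfold Wt at hk''
  rw [c3] at hk''
  have hm := vals_mem Z' (mem_powersetCard.mpr ⟨fun x hx => mem_range.mpr (by
    have := hk'.box.1 x hx; omega), c3⟩) k (mem_range.mpr (by omega)) hk''
  refine ⟨_, hm, fun a => (hs a).trans (by simp), ?_⟩
  have key : ∀ μ : Multiset ℕ, (∀ r ∈ μ, 0 < r) → μ.sum = s' + k →
      chi μ Y = PV (vals k Z') μ := fun μ hμ h => by
    rw [hsim.1 μ hμ, hr'.small hk' c3 (by omega) hμ h]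
  rcases ht with ht | ht
  · exact Or.inl fun μ hμ h => by rw [ht μ hμ, key μ hμ h]
  · exact Or.inr fun μ hμ h => by rw [ht μ hμ, key μ hμ h]

end Pool.Agent.MP_f0a921_al

end

section

/-! Correctness of the character table checker. -/

namespace Pool.Agent.MP_f0a921_al
open Finset Function

def mk (X : Finset ℕ) : ℕ := ∑ x ∈ X, 2 ^ x

theorem tB_mk (X : Finset ℕ) (i : ℕ) : tB (mk X) i = decide (i ∈ X) := by
  have h1 : tB (mk X) i = (mk X).testBit i := by
    rw [Nat.testBit_eq_decide_div_mod_eq, ← Nat.shiftRight_eq_div_pow, ← Nat.one_and_eq_mod_two]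
    rw [Bool.eq_iff_iff, decide_eq_true_iff]
    exact Nat.beq_eq
      ▸ Iff.rfl
  have h2 : (mk X).testBit i = true ↔ i ∈ X := by
    rw [← Nat.mem_bitIndices, ← List.mem_toFinset, mk, toFinset_bitIndices_sum_two_pow]
  rw [h1, Bool.eq_iff_iff, h2, decide_eq_true_iff]

theorem mk_mv {X : Finset ℕ} {c r : ℕ} (h1 : c ∉ X) (h2 : c + r ∈ X) :
    mk (mv X (c + r) r) = mk X - 2 ^ (c + r) + 2 ^ c := by
  unfold mk mv
  rw [Nat.add_sub_cancel, sum_insert fun h => h1 (mem_of_mem_erase h),
    ← add_sum_erase X (fun x => 2 ^ x) h2]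
  omega

theorem snM_mk (X : Finset ℕ) {b r : ℕ} (hr : 0 < r) (hb : r ≤ b) :
    (bif snM (mk X) b r then 1 else -1 : ℤ) = sn X b r := by
  have key : ∀ t, t + 1 ≤ b → (bif snM (mk X) b (t + 1) then 1 else -1 : ℤ) = sn X b (t + 1) := by
    intro t
    induction t with
    | zero => intro _; rw [sn_one]; rfl
    | succ t ih =>
      intro h
      have e : snM (mk X) b (t + 1 + 1) =
        bif tB (mk X) (b - 1 - t) then not (snM (mk X) b (t + 1)) else snM (mk X) b (t + 1) := rfl
      have ih' := ih (by omega)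
      rw [e, tB_mk]
      unfold sn at *
      by_cases hm : b - 1 - t ∈ X
      · have : (X.filter fun y => b - (t + 1 + 1) < y ∧ y < b) =
            insert (b - 1 - t) (X.filter fun y => b - (t + 1) < y ∧ y < b) := by
          ext y
          simp only [mem_filter, mem_insert]
          constructor
          · rintro ⟨h1, h2⟩
            by_cases e : y = b - 1 - t
            · exact Or.inl e
            · exact Or.inr ⟨h1, by omega⟩
          · rintro (rfl | h1)
            · exact ⟨hm, by omega⟩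
            · exact ⟨h1.1, by omega⟩
        rw [this, card_insert_of_notMem (by simp; omega), pow_succ, ← ih', decide_eq_true hm]
        cases snM (mk X) b (t + 1) <;> rfl
      · have : (X.filter fun y => b - (t + 1 + 1) < y ∧ y < b) =
            X.filter fun y => b - (t + 1) < y ∧ y < b := by
          refine filter_congr fun y hy => ?_
          have : y ≠ b - 1 - t := fun e => hm (e ▸ hy)
          omega
        rw [this, ← ih', decide_eq_false hm]; rfl
  obtain ⟨t, rfl⟩ : ∃ t, r = t + 1 := ⟨r - 1, by omega⟩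
  exact key t hb

theorem Ub_range {N r : ℕ} (H : Finset ℕ → ℤ) {X : Finset ℕ} (hX : ∀ b ∈ X, b < N) :
    Ub r H X = ∑ c ∈ range (N - r),
      if c ∉ X ∧ c + r ∈ X then sn X (c + r) r * H (mv X (c + r) r) else 0 := by
  unfold Ub
  rw [← sum_filter, ← sum_filter]
  refine sum_nbij' (fun b => b - r) (fun c => c + r) ?_ ?_ ?_ ?_ ?_
  · intro b hb
    simp only [mem_filter, mem_range] at hb ⊢
    have := hX b hb.1
    exact ⟨by omega, hb.2.2, by rw [Nat.sub_add_cancel hb.2.1]; exact hb.1⟩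
  · intro c hc
    simp only [mem_filter, mem_range, Nat.add_sub_cancel] at hc ⊢
    exact ⟨hc.2.2, by omega, hc.2.1⟩
  · intro b hb
    exact Nat.sub_add_cancel (mem_filter.mp hb).2.1
  · intro c _
    simp
  · intro b hb
    rw [Nat.sub_add_cancel (mem_filter.mp hb).2.1]

theorem UbM_spec {N r o : ℕ} (hr : 0 < r) {h : ℕ → ℕ} {H : Finset ℕ → ℤ} {X : Finset ℕ}
    (hX : ∀ b ∈ X, b < N) (hh : ∀ b ∈ X, r ≤ b → b - r ∉ X →
      (h (mk (mv X b r)) : ℤ) = o + H (mv X b r)) :
    ((UbM N r h o (mk X)).1 : ℤ) - (UbM N r h o (mk X)).2 = Ub r H X := by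
  rw [Ub_range H hX]
  have key : ∀ t, ((UbM (t + r) r h o (mk X)).1 : ℤ) - (UbM (t + r) r h o (mk X)).2 =
      ∑ c ∈ range t, if c ∉ X ∧ c + r ∈ X then sn X (c + r) r * H (mv X (c + r) r) else 0 := by
    intro t
    unfold UbM
    simp only [Nat.sub_eq, Nat.add_sub_cancel, frc_eq, tB_mk, Nat.add_eq, Nat.pow_eq]
    induction t with
    | zero => rfl
    | succ t ih =>
      rw [sum_range_succ, ← ih]
      by_cases h1 : t ∈ X
      · simp [h1]
      by_cases h2 : t + r ∈ X
      · have e := hh _ h2 (by omega) (by simpa using h1)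
        rw [mk_mv h1 h2] at e
        rw [if_pos ⟨h1, h2⟩, ← snM_mk X hr (by omega)]
        simp only [h1, h2, decide_true, decide_false, cond_true, cond_false]
        cases snM (mk X) (t + r) r
        · simp only [cond_false]; push_cast; linarith
        · simp only [cond_true]; push_cast; linarith
      · simp [h1, h2]
  have : UbM N r h o (mk X) = UbM (N - r + r) r h o (mk X) := by
    unfold UbM
    simp only [Nat.sub_eq, Nat.add_sub_cancel]
  rw [this, key]

/-! ### packed values -/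

def pk (v : List ℕ → ℤ) (L : List (List ℕ)) : ℤ :=
  L.foldr (fun l acc => v l + 4294967311 * acc) 0

def pkN (v : List ℕ → ℤ) (L : List (List ℕ)) : ℕ :=
  L.foldr (fun l acc => (v l + 2147483648).toNat + 4294967311 * acc) 0

theorem pkN_eq {v : List ℕ → ℤ} {L : List (List ℕ)} (h : ∀ l ∈ L, |v l| < 2147483648) :
    (pkN v L : ℤ) = off L.length + pk v L := by
  induction L with
  | nil => rfl
  | cons l L ih =>
    have h1 := abs_lt.mp (h l (by simp))
    have h2 := ih fun x hx => h x (by simp [hx])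
    have e : off (l :: L).length = 2147483648 + 4294967311 * off L.length := rfl
    simp only [pkN, pk, List.foldr_cons] at h2 ⊢
    rw [e]
    omega

theorem pkN_lt {v : List ℕ → ℤ} {L : List (List ℕ)} (h : ∀ l ∈ L, |v l| < 2147483648) :
    pkN v L < sc L.length := by
  induction L with
  | nil => exact Nat.one_pos
  | cons l L ih =>
    have h1 := abs_lt.mp (h l (by simp))
    have h2 := ih fun x hx => h x (by simp [hx])
    have e : sc (l :: L).length = sc L.length * 4294967311 := rfl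
    simp only [pkN, List.foldr_cons] at h2 ⊢
    rw [e]
    omega

theorem pkN_append (v : List ℕ → ℤ) (A B : List (List ℕ)) :
    pkN v (A ++ B) = pkN v A + sc A.length * pkN v B := by
  induction A with
  | nil => simp [pkN, sc]
  | cons l L ih =>
    have e : sc (l :: L).length = sc L.length * 4294967311 := rfl
    simp only [pkN, List.cons_append, List.foldr_cons] at ih ⊢
    rw [e, ih]; ring

theorem pk_append (v : List ℕ → ℤ) (A B : List (List ℕ)) :
    pk v (A ++ B) = pk v A + sc A.length * pk v B := by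
  induction A with
  | nil => simp [pk, sc]
  | cons l L ih =>
    have e : sc (l :: L).length = sc L.length * 4294967311 := rfl
    simp only [pk, List.cons_append, List.foldr_cons] at ih ⊢
    rw [e, ih]; push_cast; ring

theorem pk_cons {s : ℕ} (hs : 0 < s) (L : List (List ℕ)) (X : Finset ℕ) :
    pk (fun l => chi ↑(s :: l) X) L = Ub s (fun Y => pk (fun l => chi ↑l Y) L) X := by
  induction L with
  | nil => simp [pk, Ub]
  | cons l L ih =>
    simp only [pk, List.foldr_cons] at ih ⊢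
    rw [ih, ← Multiset.cons_coe, chi_cons hs]
    unfold Ub
    rw [mul_sum, ← sum_add_distrib]
    exact sum_congr rfl fun b _ => by split_ifs <;> ring

theorem dec_spec {P : List ℕ → ℕ → Bool} {v : List ℕ → ℤ} {L : List (List ℕ)}
    (h : ∀ l ∈ L, |v l| < 2147483648) (hd : dec P L (pkN v L) = true) :
    ∀ l ∈ L, P l (v l).natAbs = true := by
  induction L with
  | nil => simp
  | cons l L ih =>
    have h1 := abs_lt.mp (h l (by simp))
    have e : dec P (l :: L) (pkN v (l :: L)) = frc (Nat.mod (pkN v (l :: L)) 4294967311) fun u =>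
      frc (bif Nat.ble 2147483648 u then Nat.sub u 2147483648 else Nat.sub 2147483648 u) (P l) &&
      frc (Nat.div (pkN v (l :: L)) 4294967311) (dec P L) := rfl
    have e1 : pkN v (l :: L) = (v l + 2147483648).toNat + 4294967311 * pkN v L := rfl
    have e2 : Nat.mod (pkN v (l :: L)) 4294967311 = (v l + 2147483648).toNat := by
      change pkN v (l :: L) % _ = _; omega
    have e3 : Nat.div (pkN v (l :: L)) 4294967311 = pkN v L := by
      change pkN v (l :: L) / _ = _; omega
    have e4 : (bif Nat.ble 2147483648 (v l + 2147483648).toNat then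
        Nat.sub (v l + 2147483648).toNat 2147483648
        else Nat.sub 2147483648 (v l + 2147483648).toNat) = (v l).natAbs := by
      rw [Bool.cond_eq_ite]
      simp only [Nat.ble_eq, Nat.sub_eq]
      split_ifs <;> omega
    rw [e, e2, e3, frc_eq, frc_eq, frc_eq, e4, Bool.and_eq_true] at hd
    intro x hx
    rcases List.mem_cons.mp hx with rfl | hx
    · exact hd.1
    · exact ih (fun y hy => h y (by simp [hy])) hd.2 x hx

/-! ### enumeration of partitions -/

theorem en_succ (f e r : ℕ) : en (f + 1) e r = if e = 0 then [[]] else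
    (List.range (e + 1 - r)).flatMap fun i => (en f i (e - i)).map (List.cons (e - i)) := by
  rcases e with _ | e <;> rfl

theorem en_fuel (f f' e r : ℕ) (hr : 1 ≤ r) (h : e ≤ f) (h' : e ≤ f') : en f e r = en f' e r := by
  induction f generalizing f' e r with
  | zero =>
    obtain rfl : e = 0 := by omega
    cases f' <;> rfl
  | succ f ih =>
    rcases f' with _ | f'
    · obtain rfl : e = 0 := by omega
      rfl
    rw [en_succ, en_succ]
    split_ifs
    · rfl
    · refine List.flatMap_congr fun i hi => ?_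
      have := List.mem_range.mp hi
      rw [ih f' i (e - i) (by omega) (by omega) (by omega)]

def Fl (e t : ℕ) : List (List ℕ) :=
  (List.range t).flatMap fun i => (En i (e - i)).map (List.cons (e - i))

theorem En_zero (r : ℕ) : En 0 r = [[]] := rfl

theorem En_pos {e r : ℕ} (he : 0 < e) (hr : 1 ≤ r) : En e r = Fl e (e + 1 - r) := by
  obtain ⟨f, rfl⟩ : ∃ f, e = f + 1 := ⟨e - 1, by omega⟩
  rw [En, en_succ, if_neg (by omega), Fl]
  refine List.flatMap_congr fun i hi => ?_
  have := List.mem_range.mp hi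
  rw [En, en_fuel f i i _ (by omega) (by omega) le_rfl]

theorem Fl_succ (e t : ℕ) : Fl e (t + 1) = Fl e t ++ (En t (e - t)).map (List.cons (e - t)) := by
  simp [Fl, List.range_succ]

theorem En_mem {e r : ℕ} (hr : 1 ≤ r) {l : List ℕ} (h : l ∈ En e r) :
    (∀ x ∈ l, r ≤ x) ∧ l.sum = e := by
  induction e using Nat.strong_induction_on generalizing r l with
  | _ e ih =>
  rcases Nat.eq_zero_or_pos e with rfl | he
  · simp only [En_zero, List.mem_singleton] at h; subst h; simp
  rw [En_pos he hr, Fl, List.mem_flatMap] at h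
  obtain ⟨i, hi, h⟩ := h
  obtain ⟨l', hl', rfl⟩ := List.mem_map.mp h
  have := List.mem_range.mp hi
  obtain ⟨h1, h2⟩ := ih i (by omega) (by omega) hl'
  refine ⟨fun x hx => ?_, by rw [List.sum_cons, h2]; omega⟩
  rcases List.mem_cons.mp hx with rfl | hx
  · omega
  · have := h1 x hx; omega

theorem En_complete {e r : ℕ} (hr : 1 ≤ r) {μ : Multiset ℕ} (h : ∀ x ∈ μ, r ≤ x)
    (hs : μ.sum = e) : ∃ l ∈ En e r, (l : Multiset ℕ) = μ := by
  induction e using Nat.strong_induction_on generalizing r μ with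
  | _ e ih =>
  by_cases h0 : μ = 0
  · subst h0; subst hs; exact ⟨[], by simp [En_zero], rfl⟩
  obtain ⟨s, hs1, hs2⟩ := exists_min_image μ.toFinset id (Multiset.toFinset_nonempty.mpr h0)
  simp only [Multiset.mem_toFinset, id] at hs1 hs2
  obtain ⟨ν, rfl⟩ := Multiset.exists_cons_of_mem hs1
  have := h s hs1
  rw [Multiset.sum_cons] at hs
  obtain ⟨l, hl, rfl⟩ := ih ν.sum (by omega) (r := s) (by omega)
    (fun x hx => hs2 x (Multiset.mem_cons_of_mem hx)) rfl
  refine ⟨s :: l, ?_, rfl⟩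
  rw [En_pos (by omega) hr, Fl, List.mem_flatMap]
  refine ⟨(l : Multiset ℕ).sum, List.mem_range.mpr (by omega), List.mem_map.mpr ⟨l, ?_, ?_⟩⟩
  · rwa [show e - (l : Multiset ℕ).sum = s by omega]
  · rw [show e - (l : Multiset ℕ).sum = s by omega]

theorem En_pre {e r r' : ℕ} (hr : 1 ≤ r) (h : r ≤ r') : ∃ B, En e r = En e r' ++ B := by
  rcases Nat.eq_zero_or_pos e with rfl | he
  · exact ⟨[], rfl⟩
  rw [En_pos he hr, En_pos he (hr.trans h), Fl, Fl,
    show e + 1 - r = e + 1 - r' + (e + 1 - r - (e + 1 - r')) by omega, List.range_add,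
    List.flatMap_append]
  exact ⟨_, rfl⟩

theorem zz_rep {ρ : Multiset ℕ} {p : ℕ} (h : p ∉ ρ) (j : ℕ) :
    zz (Multiset.replicate j p + ρ) = p ^ j * j.factorial * zz ρ := by
  induction j with
  | zero => simp
  | succ j ih =>
    rw [Multiset.replicate_succ, Multiset.cons_add, zz_cons, ih, Multiset.count_add,
      Multiset.count_eq_zero_of_notMem h, Multiset.count_replicate_self, Nat.factorial_succ]
    ring

theorem chi_small {μ : Multiset ℕ} (hμ : ∀ r ∈ μ, 0 < r) (h : μ.sum ≤ 19) (X : Finset ℕ) :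
    |chi μ X| < 2147483648 := by
  have h1 := chi_abs_le hμ X
  have h2 := chi_sq_le (ones_pos μ.sum) X
  have h3 := zz_rep (ρ := 0) (p := 1) (by simp) μ.sum
  rw [add_zero, one_pow, one_mul, zz_zero, mul_one] at h3
  have h4 : μ.sum.factorial ≤ 121645100408832000 := Nat.factorial_le h
  rw [h3] at h2
  change dm μ.sum X * dm μ.sum X ≤ _ at h2
  have h5 : ((μ.sum.factorial : ℕ) : ℤ) ≤ 121645100408832000 := by exact_mod_cast h4
  nlinarith

theorem En_small {e r : ℕ} (hr : 1 ≤ r) (he : e ≤ 19) (X : Finset ℕ) :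
    ∀ l ∈ En e r, |chi ↑l X| < 2147483648 := fun l hl => by
  obtain ⟨h1, h2⟩ := En_mem hr hl
  exact chi_small (fun x hx => hr.trans (h1 x hx)) (by rw [Multiset.sum_coe]; omega) X

/-! ### enumeration of bead sets -/

theorem gen_succ (n e a m : ℕ) (L : List ℕ) : gen (n + 1) e a m L =
    if (n + 1) * a < e then L else
      Nat.rec L (fun s acc => gen n (e - s) s (m + 2 ^ (n + s)) acc) (min a e + 1) := by
  have : gen (n + 1) e a m L = bif Nat.blt (Nat.mul (Nat.succ n) a) e then L else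
    Nat.rec L (fun s acc => frc (Nat.sub e s) fun e' =>
      frc (Nat.add m (Nat.pow 2 (Nat.add n s))) fun m' => gen n e' s m' acc)
      (Nat.succ (bif Nat.ble a e then a else e)) := rfl
  rw [this]
  simp only [frc_eq, Bool.cond_eq_ite, Nat.blt_eq, Nat.ble_eq, min_def]
  rfl

theorem gen_mono (n e a m : ℕ) (L : List ℕ) {x : ℕ} (h : x ∈ L) : x ∈ gen n e a m L := by
  induction n generalizing e a m L with
  | zero =>
    change x ∈ bif Nat.beq e 0 then m :: L else L
    cases Nat.beq e 0 <;> simp [h]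
  | succ n ih =>
    rw [gen_succ]
    split_ifs
    · exact h
    · induction (min a e + 1) with
      | zero => exact h
      | succ t ih' => exact ih _ _ _ _ ih'

theorem gen_complete (n e a m : ℕ) (L : List ℕ) {X : Finset ℕ} (hc : X.card = n) (hw : Wt X e)
    (hB : ∀ b ∈ X, b < n + a) : m + mk X ∈ gen n e a m L := by
  induction n generalizing e a m L X with
  | zero =>
    rw [card_eq_zero] at hc
    subst hc
    obtain rfl : e = 0 := by simpa [Wt] using hw.symm
    exact List.mem_cons_self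
  | succ n ih =>
    have hb : Box X a (n + 1) := ⟨hc ▸ hB, fun h hh => by omega⟩
    have := wt_le_box hb hw
    rw [gen_succ, if_neg (by nlinarith)]
    obtain ⟨X', s, hr⟩ := exists_row (X := X) (card_pos.mp (by omega))
    obtain ⟨k, rfl, hk⟩ := hr.wt' hw
    have h1 := (hr.box hb).1
    have h2 : X'.card = n := by have := hr.card; omega
    have h3 : m + mk X = m + 2 ^ (n + s) + mk X' := by
      rw [hr.1, mk, sum_insert hr.notMem, h2, add_assoc]; rfl
    have key : ∀ t, s < t → m + mk X ∈ (Nat.rec L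
        (fun s' acc => gen n (s + k - s') s' (m + 2 ^ (n + s')) acc) t : List ℕ) := by
      intro t
      induction t with
      | zero => omega
      | succ t ih' =>
        intro ht
        by_cases e : s = t
        · subst e
          rw [h3]
          exact ih _ _ _ _ h2 (by rwa [Nat.add_sub_cancel_left]) (h2 ▸ hr.2)
        · exact gen_mono _ _ _ _ _ (ih' (by omega))
    exact key (min a (s + k) + 1) (by omega)

/-! ### the tables -/

def Good (tb : ℕ → VT) (r₀ e : ℕ) : Prop := ∀ Y : Finset ℕ, Y.card = 19 → Wt Y e →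
  (tb e).find true (mk Y) = pkN (fun l => chi ↑l Y) (En e r₀) ∧
    ((tb e).find false (mk Y) : ℤ) = dm e Y

theorem fin_eq {o : ℕ} {p : ℕ × ℕ} {z : ℤ} {w : ℕ} (h : (p.1 : ℤ) - p.2 = z) (hw : (w : ℤ) = o + z) :
    fin o p = w := by
  unfold fin
  simp only [Nat.sub_eq, Nat.add_eq]
  omega

section
variable {tb : ℕ → VT} {r₀ e : ℕ} {X : Finset ℕ}

theorem ub_tab (hr : 1 ≤ r₀) {i : ℕ} (hi : i + r₀ ≤ e ∨ i + 1 = e) (he : e ≤ 19) (hG : Good tb r₀ i)
    (hc : X.card = 19) (hw : Wt X e) {h : ℕ → ℕ} {r : ℕ} (hr' : r₀ ≤ r)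
    (hh : ∀ Y : Finset ℕ, (tb i).find true (mk Y) = pkN (fun l => chi ↑l Y) (En i r₀) →
      h (mk Y) = pkN (fun l => chi ↑l Y) (En i r)) :
    ((UbM (19 + e) (e - i) h (off (cnt i r)) (mk X)).1 : ℤ) -
      (UbM (19 + e) (e - i) h (off (cnt i r)) (mk X)).2 =
      pk (fun l => chi ↑((e - i) :: l) X) (En i r) := by
  rw [pk_cons (by omega)]
  refine UbM_spec (by omega) (hc ▸ hw.box.1) fun b hb h1 h2 => ?_
  have h3 := (hw.mv hb h1 h2).2
  rw [show e - (e - i) = i by omega] at h3
  rw [hh _ (hG _ ((card_mv hb h2).trans hc) h3).1, pkN_eq (En_small (by omega) (by omega) _)]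
  rfl

theorem comp_spec (hr : 1 ≤ r₀) (he0 : 0 < e) (he : e ≤ 19) (hG : ∀ i < e, Good tb r₀ i)
    (hc : X.card = 19) (hw : Wt X e) :
    comp tb r₀ e (mk X) = pkN (fun l => chi ↑l X) (En e r₀) := by
  have key : ∀ t ≤ e + 1 - r₀, ((cmpP tb e (mk X) t).1 : ℤ) - (cmpP tb e (mk X) t).2 =
      pk (fun l => chi ↑l X) (Fl e t) := by
    intro t
    induction t with
    | zero => intro _; rfl
    | succ t ih =>
      intro ht
      have ih' := ih (by omega)
      have e1 : cmpP tb e (mk X) (t + 1) = bif Nat.beq (cnt t (e - t)) 0 then cmpP tb e (mk X) t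
        else ((cmpP tb e (mk X) t).1 + sc (cnt e (e + 1 - t)) * (blk tb e (mk X) t).1,
          (cmpP tb e (mk X) t).2 + sc (cnt e (e + 1 - t)) * (blk tb e (mk X) t).2) := rfl
      have e2 : ((blk tb e (mk X) t).1 : ℤ) - (blk tb e (mk X) t).2 =
          pk (fun l => chi ↑l X) ((En t (e - t)).map (List.cons (e - t))) := by
        unfold blk
        rw [frc_eq, pk, List.foldr_map]
        refine ub_tab hr (by omega) he (hG t (by omega)) hc hw (r := e - t) (by omega)
          fun Y hY => ?_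
        obtain ⟨B, hB⟩ := En_pre (e := t) hr (r' := e - t) (by omega)
        rw [hY, hB, pkN_append]
        exact (Nat.add_mul_mod_self_left _ _ _).trans
          (Nat.mod_eq_of_lt (pkN_lt (En_small (by omega) (by omega) _)))
      have e3 : cnt e (e + 1 - t) = (Fl e t).length := by
        rw [cnt, En_pos he0 (by omega), show e + 1 - (e + 1 - t) = t by omega]
      rw [e1, Fl_succ, pk_append, ← ih', ← e2, e3]
      cases h0 : Nat.beq (cnt t (e - t)) 0
      · simp only [cond_false]; push_cast; ring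
      · have : En t (e - t) = [] := List.length_eq_zero_iff.mp (Nat.eq_of_beq_eq_true h0)
        rw [this] at e2
        rw [e2]; simp [pk]
  refine fin_eq (key _ le_rfl) ?_
  rw [pkN_eq (En_small hr he _), En_pos he0 hr, cnt, En_pos he0 hr]
  rfl

theorem cdim_spec (he0 : 0 < e) (hG : Good tb r₀ (e - 1)) (hc : X.card = 19) (hw : Wt X e) :
    (cdim tb e (mk X) : ℤ) = dm e X := by
  obtain ⟨f, rfl⟩ : ∃ f, e = f + 1 := ⟨e - 1, by omega⟩
  have := UbM_spec (N := 19 + (f + 1)) (o := 0) (h := (tb f).find false) (H := dm f) one_pos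
    (hc ▸ hw.box.1) fun b hb h1 h2 => by
      rw [Nat.cast_zero, zero_add]
      exact (hG _ ((card_mv hb h2).trans hc) (hw.mv hb h1 h2).2).2
  rw [← dm_succ] at this
  have h2 := fin_eq (o := 0) (w := (dm (f + 1) X).toNat) this
    (by rw [Int.toNat_of_nonneg (dm_nonneg _ _)]; simp)
  rw [← Int.toNat_of_nonneg (dm_nonneg (f + 1) X), ← h2]
  rfl

theorem mk_mem_gen {a : ℕ} (hc : X.card = 19) (hw : Wt X e) (hB : Box X a a) :
    mk X ∈ gen 19 e a 0 [] := by
  simpa using gen_complete 19 e a 0 [] hc hw (hc ▸ hB.1)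

theorem good_all (hr : 1 ≤ r₀) {E : ℕ} (hE : E ≤ 19)
    (h0 : (tb 0).find true 524287 = 2147483649 ∧ (tb 0).find false 524287 = 1)
    (h : ∀ e, 0 < e → e ≤ E → tchk tb r₀ e = true) : ∀ e ≤ E, Good tb r₀ e := by
  intro e
  induction e using Nat.strong_induction_on with
  | _ e ih =>
  intro he Y hc hw
  rcases Nat.eq_zero_or_pos e with rfl | he0
  · have h1 := dm_zero hw
    have h2 : Y = range 19 := by
      by_contra hne
      simp only [dm, Multiset.replicate_zero, chi_zero, vac, hc, if_neg hne] at h1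
      exact absurd h1 (by decide)
    have h3 : mk Y = 524287 := by rw [h2]; decide
    rw [h3, h0.1, h0.2, h1]
    refine ⟨?_, rfl⟩
    change _ = (dm 0 Y + 2147483648).toNat + 4294967311 * 0
    rw [h1]; rfl
  have := List.all_eq_true.mp (h e he0 he) _ (mk_mem_gen hc hw hw.box)
  rw [Bool.and_eq_true] at this
  refine ⟨(Nat.eq_of_beq_eq_true this.1).trans
    (comp_spec hr he0 (by omega) (fun i hi => ih i hi (by omega)) hc hw), ?_⟩
  rw [Nat.eq_of_beq_eq_true this.2]
  exact cdim_spec he0 (ih _ (by omega) (by omega)) hc hw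

theorem allB_low {a t : ℕ} (hc : X.card = 19) (hB : Box X a a) (ht : t + a ≤ 19) :
    allB t (tB (mk X)) = true := by
  induction t with
  | zero => rfl
  | succ t ih =>
    change (tB (mk X) t && allB t (tB (mk X))) = true
    rw [ih (by omega), tB_mk, decide_eq_true (hB.2 t (by omega))]; rfl

theorem fchk_spec (he0 : 4 ≤ e) (he : e ≤ 19) (hG : ∀ i < e, Good tb 2 i) (hc : X.card = 19)
    (hw : Wt X e) (hB : Box X (e - 4) (e - 4)) (h : fchk tb e = true) :
    (∀ l ∈ En e 2, P0 e (dm e X).toNat l (chi ↑l X).natAbs = true) ∧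
      ∀ l ∈ En (e - 1) 2, P1 e (dm e X).toNat l (chi ↑(1 :: l) X).natAbs = true := by
  have := List.all_eq_true.mp h _ (mk_mem_gen hc hw hB)
  rw [allB_low hc hB (by omega)] at this
  simp only [frc_eq, Bool.not_true, Bool.false_or, Bool.and_eq_true] at this
  have h1 : cdim tb e (mk X) = (dm e X).toNat := by
    rw [← cdim_spec (by omega) (hG _ (by omega)) hc hw, Int.toNat_natCast]
  rw [h1, comp_spec (by omega) (by omega) he hG hc hw] at this
  refine ⟨dec_spec (En_small (by omega) he _) this.1, ?_⟩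
  have hs : ∀ l ∈ En (e - 1) 2, |chi ↑(1 :: l) X| < 2147483648 := fun l hl => by
    obtain ⟨a1, a2⟩ := En_mem (by omega) hl
    refine chi_small (fun x hx => ?_) (by rw [Multiset.sum_coe, List.sum_cons]; omega) X
    rcases List.mem_cons.mp hx with rfl | hx
    · exact one_pos
    · have := a1 x hx; omega
  refine dec_spec hs ?_
  have h2 := ub_tab (i := e - 1) (by omega) (by omega) he (hG _ (by omega)) hc hw (r := 2) le_rfl
    (h := (tb (e - 1)).find true) fun _ hY => hY
  rw [show e - (e - 1) = 1 by omega] at h2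
  rw [← fin_eq h2 (pkN_eq hs)]
  exact this.2

theorem bchk_spec (hG : ∀ i < 10, Good tb 1 i) (hc : X.card = 19) (hw : Wt X 10) (hB : Box X 8 8)
    (h : bchk tb = true) : ∀ l ∈ En 10 1, P2 (dm 10 X).toNat l (chi ↑l X).natAbs = true := by
  have := List.all_eq_true.mp h _ (mk_mem_gen hc hw hB)
  rw [allB_low hc hB (by omega)] at this
  simp only [frc_eq, Bool.not_true, Bool.false_or] at this
  have h1 : cdim tb 10 (mk X) = (dm 10 X).toNat := by
    rw [← cdim_spec (by omega) (hG _ (by omega)) hc hw, Int.toNat_natCast]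
  rw [h1, comp_spec (by omega) (by omega) (by omega) hG hc hw] at this
  exact dec_spec (En_small (by omega) (by omega) _) this

end

end Pool.Agent.MP_f0a921_al

end

section

/-! The two general bounds, and soundness of the numerical checkers. -/

namespace Pool.Agent.MP_f0a921_al
open Finset Function

theorem RL {Y Y' : Finset ℕ} {a k : ℕ} (hr : Row Y Y' a) (hk : Wt Y' k) (hB : Box Y a a)
    (ha : 0 < a) {μ : Multiset ℕ} (hμ : ∀ r ∈ μ, 0 < r) {C D N : ℕ}
    (hC : cum μ (min k (2 * a - 1)) ≤ C)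
    (h : C * (Mn a k * k.factorial) * D < N * (a + k).factorial) :
    |chi μ Y| * D < N * dm (a + k) Y := by
  obtain ⟨S, -, a2, a3, a4⟩ := hr.hooks hk
  have h1 : ((∏ x ∈ S, x : ℕ) : ℤ) ≤ Mn a k := by exact_mod_cast prod_le_Mn ha a2 a3
  have h2 := hr.bound hk hB hμ
  have h3 : (cum μ (min k (2 * a - 1)) : ℤ) ≤ C := by exact_mod_cast hC
  have h4 : (C : ℤ) * (Mn a k * k.factorial) * D < N * (a + k).factorial := by exact_mod_cast h
  have p1 := dm_pos hk
  have p2 := dm_pos (hr.wt hk)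
  have p3 : (0 : ℤ) < (a + k).factorial := by exact_mod_cast Nat.factorial_pos _
  apply lt_of_mul_lt_mul_right _ p3.le
  calc |chi μ Y| * D * (a + k).factorial ≤ dm k Y' * C * D * (a + k).factorial := by
        gcongr; exact h2.trans (by gcongr)
    _ = dm (a + k) Y * (C * ((∏ x ∈ S, x : ℕ) * k.factorial) * D) := by
        linear_combination (-(C : ℤ) * D) * a4
    _ ≤ dm (a + k) Y * (C * (Mn a k * k.factorial) * D) := by gcongr
    _ < dm (a + k) Y * (N * (a + k).factorial) := by gcongr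
    _ = _ := by ring

theorem ZL {Y : Finset ℕ} {d : ℕ} (hw : Wt Y d) {μ : Multiset ℕ} (hμ : ∀ r ∈ μ, 0 < r) {H : ℝ}
    {z D N : ℕ} (hH : (d.factorial : ℝ) ≤ dm d Y * H) (hz : zz μ ≤ z)
    (h : (z : ℝ) * H ^ 2 * D ^ 2 < N ^ 2 * d.factorial ^ 2) : |chi μ Y| * D < N * dm d Y := by
  have h1 : ((chi μ Y : ℤ) : ℝ) ^ 2 ≤ z := by
    have := (chi_sq_le hμ Y).trans (Int.ofNat_le.mpr hz)
    rw [sq]; exact_mod_cast this
  have p2 : (0 : ℝ) < dm d Y := by exact_mod_cast dm_pos hw
  have p3 : (0 : ℝ) < d.factorial := by exact_mod_cast Nat.factorial_pos _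
  have : |((chi μ Y : ℤ) : ℝ)| * D < N * dm d Y := by
    apply lt_of_pow_lt_pow_left₀ 2 (by positivity)
    apply lt_of_mul_lt_mul_right _ (sq_nonneg (d.factorial : ℝ))
    calc (|((chi μ Y : ℤ) : ℝ)| * D) ^ 2 * (d.factorial : ℝ) ^ 2
        ≤ (z * D ^ 2) * (dm d Y * H) ^ 2 := by rw [mul_pow, sq_abs]; gcongr
      _ = dm d Y ^ 2 * (z * H ^ 2 * D ^ 2) := by ring
      _ < dm d Y ^ 2 * (N ^ 2 * d.factorial ^ 2) := by gcongr
      _ = _ := by ring
  exact_mod_cast this

theorem hook_top {Y Y' : Finset ℕ} {a k : ℕ} (hr : Row Y Y' a) (hk : Wt Y' k) (hB : Box Y a a)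
    (ha : 0 < a) (hk' : k ≤ 73) :
    ((a + k).factorial : ℤ) ≤ dm (a + k) Y * (Mn a k * Ht k a) := by
  obtain ⟨S, -, a2, a3, a4⟩ := hr.hooks hk
  have h1 : ((∏ x ∈ S, x : ℕ) : ℤ) ≤ Mn a k := by exact_mod_cast prod_le_Mn ha a2 a3
  have h2 := hook_tab hk' hk ((hr.box hB).2.mono le_rfl (by omega))
  have p1 := dm_pos hk
  have p2 := dm_pos (hr.wt hk)
  apply le_of_mul_le_mul_right _ p1
  calc ((a + k).factorial : ℤ) * dm k Y' = dm (a + k) Y * (∏ x ∈ S, x : ℕ) * k.factorial := a4.symm
    _ ≤ dm (a + k) Y * Mn a k * (dm k Y' * Ht k a) := by gcongr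
    _ = _ := by ring

theorem Yf_succ (p f R : ℕ) : Yf p (f + 1) R = if p ≤ R then R * Yf p f (R - p) else 1 := by
  change (bif Nat.ble p R then _ else _) = _
  rw [Bool.cond_eq_ite]; simp only [Nat.ble_eq]; rfl

theorem Yf_mono {p : ℕ} (hp : 0 < p) (f : ℕ) {R R' : ℕ} (h : R ≤ R') :
    1 ≤ Yf p f R' ∧ Yf p f R ≤ Yf p f R' := by
  induction f generalizing R R' with
  | zero => exact ⟨le_rfl, le_rfl⟩
  | succ f ih =>
    rw [Yf_succ, Yf_succ]
    have := ih (R := R - p) (R' := R' - p) (by omega)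
    have h1 : p ≤ R' → 1 ≤ R' * Yf p f (R' - p) := fun h => Nat.mul_pos (by omega) this.1
    split_ifs with h2 h3
    · exact ⟨h1 h2, Nat.mul_le_mul h this.2⟩
    · exact ⟨h1 h2, h1 h2⟩
    · omega
    · exact ⟨le_rfl, le_rfl⟩

theorem mul_count_le (r : ℕ) (ρ : Multiset ℕ) : r * ρ.count r ≤ ρ.sum := by
  obtain ⟨u, hu⟩ := Multiset.le_iff_exists_add.mp
    (Multiset.le_count_iff_replicate_le.mp (le_refl (ρ.count r)))
  conv_rhs => rw [hu, Multiset.sum_add, Multiset.sum_replicate, smul_eq_mul, mul_comm]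
  omega

theorem zz_le_Yf {p : ℕ} (hp : 0 < p) {ρ : Multiset ℕ} (h : ∀ r ∈ ρ, p ≤ r) {f : ℕ}
    (hf : ρ.sum ≤ f) : zz ρ ≤ Yf p f ρ.sum := by
  induction ρ using Multiset.induction_on generalizing f with
  | empty => exact (Yf_mono hp f le_rfl).1
  | cons r ρ ih =>
    have h1 := h r (Multiset.mem_cons_self _ _)
    rw [Multiset.sum_cons] at hf ⊢
    obtain ⟨f, rfl⟩ : ∃ g, f = g + 1 := ⟨f - 1, by omega⟩
    rw [zz_cons, Yf_succ, if_pos (by omega)]
    have := mul_count_le r ρ
    exact Nat.mul_le_mul (by nlinarith) ((ih (fun x hx => h x (Multiset.mem_cons_of_mem hx))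
      (by omega)).trans (Yf_mono hp f (by omega)).2)

theorem Yf_two_sq (f R : ℕ) : Yf 2 f R ^ 2 ≤ (R + 1).factorial := by
  induction f generalizing R with
  | zero => exact Nat.factorial_pos _
  | succ f ih =>
    rw [Yf_succ]
    split_ifs with h
    · obtain ⟨R, rfl⟩ : ∃ S, R = S + 2 := ⟨R - 2, by omega⟩
      have := ih R
      rw [Nat.add_sub_cancel, mul_pow, Nat.factorial_succ, Nat.factorial_succ, ← mul_assoc]
      exact Nat.mul_le_mul (by nlinarith) this
    · exact Nat.factorial_pos _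

theorem decomp {μ : Multiset ℕ} (hμ : ∀ r ∈ μ, 0 < r) : ∃ ρ : Multiset ℕ, (∀ r ∈ ρ, 3 ≤ r) ∧
    μ = Multiset.replicate (μ.count 1) 1 + (Multiset.replicate (μ.count 2) 2 + ρ) := by
  refine ⟨μ.filter (3 ≤ ·), fun r hr => (Multiset.mem_filter.mp hr).2, ?_⟩
  ext x
  simp only [Multiset.count_add, Multiset.count_replicate, Multiset.count_filter]
  rcases x with _ | _ | _ | x
  · simpa using fun h => lt_irrefl _ (hμ 0 h)
  · simp
  · simp
  · simp

theorem card_mul_le {p : ℕ} {ρ : Multiset ℕ} (h : ∀ r ∈ ρ, p ≤ r) : ρ.card * p ≤ ρ.sum := by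
  simpa using Multiset.card_nsmul_le_sum h

theorem pack_aux (y w : ℕ) (M : Multiset ℕ) : ∃ u v L, (M.map ((y + 1) ^ ·)).sum =
    L + (y + 1) ^ (w + 1) * u ∧ L ≤ M.countP (· ≤ w) * (y + 1) ^ w ∧
    L = M.countP (· ≤ w) + y * v := by
  induction M using Multiset.induction_on with
  | empty => exact ⟨0, 0, 0, by simp⟩
  | cons e M ih =>
    obtain ⟨u, v, L, h1, h2, h3⟩ := ih
    rw [Multiset.map_cons, Multiset.sum_cons, Multiset.countP_cons, h1]
    split_ifs with h
    · obtain ⟨v', hv'⟩ : ∃ v', (y + 1) ^ e = 1 + y * v' := by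
        clear h
        induction e with
        | zero => exact ⟨0, rfl⟩
        | succ e ih => obtain ⟨v, hv⟩ := ih; exact ⟨v + 1 + y * v, by rw [pow_succ, hv]; ring⟩
      have := Nat.pow_le_pow_right (show 0 < y + 1 by omega) h
      exact ⟨u, v + v', L + (y + 1) ^ e, by ring, by nlinarith, by rw [hv', h3]; ring⟩
    · obtain ⟨t, rfl⟩ : ∃ t, e = w + 1 + t := ⟨e - (w + 1), by omega⟩
      exact ⟨u + (y + 1) ^ t, v, L, by ring, by simpa using h2, by simpa using h3⟩

theorem prod_one_add (x : ℕ) (ν : Multiset ℕ) :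
    (ν.map (1 + x ^ ·)).prod = ((ν.powerset.map Multiset.sum).map (x ^ ·)).sum := by
  induction ν using Multiset.induction_on with
  | empty => simp
  | cons r ν ih =>
    rw [Multiset.map_cons, Multiset.prod_cons, ih, Multiset.powerset_cons]
    simp only [Multiset.map_add, Multiset.sum_add, Multiset.map_map, comp_def, Multiset.sum_cons,
      pow_add, Multiset.sum_map_mul_left]
    ring

theorem cum_pack (y w : ℕ) (ν : Multiset ℕ) (h : 2 ^ ν.card < y) :
    cum ν w = (ν.map (1 + (y + 1) ^ ·)).prod % (y + 1) ^ (w + 1) % y := by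
  obtain ⟨u, v, L, h1, h2, h3⟩ := pack_aux y w (ν.powerset.map Multiset.sum)
  have e : (ν.powerset.map Multiset.sum).countP (· ≤ w) = cum ν w := by
    rw [Multiset.countP_map, ← Multiset.countP_eq_card_filter]; rfl
  rw [e] at h2 h3
  have h4 : cum ν w ≤ 2 ^ ν.card := by
    rw [← Multiset.card_powerset]; exact Multiset.countP_le_card _ _
  have h5 : L < (y + 1) ^ (w + 1) := by
    have : 0 < (y + 1) ^ w := by positivity
    rw [pow_succ]; nlinarith
  rw [prod_one_add, h1, Nat.add_mul_mod_self_left, Nat.mod_eq_of_lt h5, h3,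
    Nat.add_mul_mod_self_left, Nat.mod_eq_of_lt (by omega)]

/-- the strict bound aimed at -/
def Tg (d : ℕ) (μ : Multiset ℕ) (X : Finset ℕ) : Prop :=
  |chi μ X| * tD (μ.count 1) (μ.count 2) d < tN (μ.count 1) (μ.count 2) * dm d X

section
variable {Y Y' : Finset ℕ} {a k : ℕ} {μ : Multiset ℕ}

theorem cum_J (hμ : ∀ r ∈ μ, 0 < r) (w : ℕ) : cum μ w ≤ cum (Multiset.replicate (μ.count 1) 1 +
    Multiset.replicate (μ.count 2) 2 +
    Multiset.replicate ((μ.sum - μ.count 1 - 2 * μ.count 2) / 3) 3) w := by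
  obtain ⟨ρ, h1, h2⟩ := decomp hμ
  have h3 := congrArg Multiset.sum h2
  simp only [Multiset.sum_add, Multiset.sum_replicate, smul_eq_mul] at h3
  have := card_mul_le h1
  conv_lhs => rw [h2, ← add_assoc]
  exact cum_le_rep _ _ h1 (by omega) w

theorem J_sound (hr : Row Y Y' a) (hk : Wt Y' k) (hB : Box Y a a) (hμ : ∀ r ∈ μ, 0 < r)
    (hs : μ.sum = a + k) (h1 : μ.count 1 ≤ 1) (h2 : μ.count 1 = 0 → 2 * μ.count 2 ≠ a + k)
    (h4 : 4 ≤ k) (hd : a + k ≤ 83) (hJ : Jd (a + k) = true) : Tg (a + k) μ Y := by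
  have hb := wt_le_box hB (hr.wt hk)
  have ha : 0 < a := by
    rcases a with _ | a <;> omega
  obtain ⟨ρ, b1, b2⟩ := decomp hμ
  have b3 := congrArg Multiset.sum b2
  simp only [Multiset.sum_add, Multiset.sum_replicate, smul_eq_mul] at b3
  have b4 : ρ.sum = 0 ∨ 3 ≤ ρ.sum := by
    have := card_mul_le b1
    by_cases h : ρ = 0
    · simp [h]
    · have := Multiset.card_pos.mpr h; omega
  have c := allB_iff (allB_iff hJ (μ.count 1) (by omega)) (μ.count 2) (by omega)
  simp only [Jcls, Bool.or_eq_true, Bool.and_eq_true, Nat.blt_eq, Nat.beq_eq] at c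
  have c2 := allB_iff (c.resolve_left (by omega)) a (by omega)
  simp only [Jone, Bool.or_eq_true, Bool.and_eq_true, Nat.blt_eq, Nat.ble_eq, fac_eq, Mf_eq,
    Nat.add_sub_cancel_left] at c2
  rcases c2.resolve_left (by omega) with c3 | c3
  · refine RL hr hk hB ha hμ ((cum_J hμ _).trans (le_of_eq ?_)) c3
    rw [cum_pack 18446744073709551615, hs]
    · simp only [EE, Multiset.map_add, Multiset.prod_add, Multiset.map_replicate,
        Multiset.prod_replicate]
      rfl
    · simp only [Multiset.card_add, Multiset.card_replicate]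
      exact (Nat.pow_le_pow_right (show 0 < 2 by omega) (show _ ≤ 63 by omega)).trans_lt
        (by norm_num)
  · refine ZL (hr.wt hk) hμ (H := (Mn a k * Ht k a : ℕ)) ?_ ?_ (by exact_mod_cast c3.2)
    · exact_mod_cast hook_top hr hk hB ha c3.1
    · conv_lhs => rw [b2, zz_rep (by
        intro h
        rcases Multiset.mem_add.mp h with h | h
        · exact absurd (Multiset.eq_of_mem_replicate h) (by decide)
        · exact absurd (b1 _ h) (by decide)), zz_rep fun h => absurd (b1 _ h) (by decide)]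
      rw [one_pow, one_mul, Nat.factorial_eq_one.mpr h1, one_mul,
        show a + k - μ.count 1 - 2 * μ.count 2 = ρ.sum by omega]
      exact Nat.mul_le_mul_left _ (zz_le_Yf (by omega) b1 (by omega))

def cb (m u : ℕ) : ℕ := ∑ i ∈ range (u + 1), m.choose i

theorem cum_twos (m w : ℕ) : cum (Multiset.replicate m 2) w = cb m (w / 2) := by
  induction m generalizing w with
  | zero => simp [cum_zero, cb, sum_range_succ']
  | succ m ih =>
    rw [Multiset.replicate_succ, cum_cons, ih, ih]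
    unfold cb
    rw [sum_range_succ' (fun i => (m + 1).choose i), sum_range_succ' (fun i => m.choose i)]
    simp only [Nat.choose_succ_succ', sum_add_distrib, Nat.choose_zero_right]
    split_ifs with h
    · rw [show (w - 2) / 2 + 1 = w / 2 by omega]; ring
    · rw [show w / 2 = 0 by omega]; simp

theorem cb_le_cbF (m u : ℕ) : cb m u ≤ cbF m u := by
  induction u with
  | zero => simp [cb, cbF]
  | succ u ih =>
    have e : cbF m (u + 1) = cbF m u + fac m / (fac (u + 1) * fac (m - (u + 1))) := rfl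
    rw [e, cb, sum_range_succ]
    refine add_le_add ih ?_
    simp only [fac_eq]
    rcases le_or_gt (u + 1) m with h | h
    · exact (Nat.choose_eq_factorial_div_factorial h).le
    · rw [Nat.choose_eq_zero_of_lt h]; exact Nat.zero_le _

theorem split_ones (hμ : ∀ r ∈ μ, 0 < r) : ∃ ρ : Multiset ℕ, (∀ r ∈ ρ, 2 ≤ r) ∧
    μ = Multiset.replicate (μ.count 1) 1 + ρ := by
  obtain ⟨ρ, h1, h2⟩ := decomp hμ
  refine ⟨_, fun r hr => ?_, h2⟩
  rcases Multiset.mem_add.mp hr with h | h
  · exact (Multiset.eq_of_mem_replicate h).ge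
  · have := h1 r h; omega

theorem cum_U (hμ : ∀ r ∈ μ, 0 < r) (h1 : μ.count 1 ≤ 1) (w : ℕ) :
    cum μ w ≤ cb (μ.sum / 2) (w / 2) + cb (μ.sum / 2) ((w - 1) / 2) := by
  obtain ⟨ρ, b1, b2⟩ := split_ones hμ
  have b3 := congrArg Multiset.sum b2
  rw [Multiset.sum_add] at b3
  have := card_mul_le b1
  have b4 := cum_le_rep (Multiset.replicate (μ.count 1) 1) ρ (t := μ.sum / 2) b1 (by omega) w
  rw [← b2] at b4
  refine b4.trans ?_
  obtain h | h : μ.count 1 = 0 ∨ μ.count 1 = 1 := by omega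
  · rw [h, Multiset.replicate_zero, zero_add, cum_twos]; omega
  · rw [h, Multiset.replicate_one, Multiset.singleton_add, cum_cons, cum_twos, cum_twos]
    split_ifs <;> omega

theorem zz_U (hμ : ∀ r ∈ μ, 0 < r) (h1 : μ.count 1 ≤ 1) : zz μ ≤ Yf 2 μ.sum μ.sum := by
  obtain ⟨ρ, b1, b2⟩ := split_ones hμ
  have b3 := congrArg Multiset.sum b2
  rw [Multiset.sum_add] at b3
  conv_lhs => rw [b2, zz_rep fun h => absurd (b1 _ h) (by decide)]
  rw [one_pow, one_mul, Nat.factorial_eq_one.mpr h1, one_mul]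
  exact (zz_le_Yf (by omega) b1 (by omega)).trans (Yf_mono (by omega) _ (by omega)).2

theorem Tg_of_U {d : ℕ} (hd : 4 ≤ d) (h : |chi μ Y| * ((d - 1) * (d - 2) : ℕ) < (2 : ℕ) * dm d Y) :
    Tg d μ Y := by
  obtain ⟨e, rfl⟩ : ∃ e, d = e + 4 := ⟨d - 4, by omega⟩
  have p1 := abs_nonneg (chi μ Y)
  have p2 := dm_nonneg (e + 4) Y
  have p3 : (0 : ℤ) ≤ e := Nat.cast_nonneg e
  unfold Tg tD tN
  simp only [show e + 4 - 1 = e + 3 by omega, show e + 4 - 2 = e + 2 by omega,
    show e + 4 - 3 = e + 1 by omega] at h ⊢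
  split_ifs with h1 h2
  · push_cast at h ⊢; nlinarith [mul_nonneg p1 p3, mul_nonneg (mul_nonneg p1 p3) p3]
  · push_cast at h ⊢; nlinarith
  · have : (1 : ℤ) ≤ μ.count 2 := by exact_mod_cast Nat.pos_of_ne_zero h2
    push_cast at h ⊢; nlinarith

theorem Uloop_spec {d t : ℕ} (h : Uloop d t = true) {s : ℕ} (h1 : 1 ≤ s) (h2 : s ≤ t) :
    UR d s = true ∨ ∃ b, s ≤ b ∧ UZ d b = true := by
  induction t with
  | zero => omega
  | succ t ih =>
    have e : Uloop d (t + 1) = bif UR d (t + 1) then Uloop d t else UZ d (t + 1) := rfl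
    rw [e] at h
    cases hR : UR d (t + 1)
    · rw [hR] at h; exact Or.inr ⟨_, h2, h⟩
    · rw [hR] at h
      by_cases e : s = t + 1
      · exact Or.inl (e ▸ hR)
      · exact ih h (by omega)

theorem U_sound (hr : Row Y Y' a) (hk : Wt Y' k) (hB : Box Y a a) (hμ : ∀ r ∈ μ, 0 < r)
    (hs : μ.sum = a + k) (h1 : μ.count 1 ≤ 1) (h5 : 5 ≤ k) (hU : Ud (a + k) = true) :
    Tg (a + k) μ Y := by
  have hb := wt_le_box hB (hr.wt hk)
  have ha : 0 < a := by
    rcases a with _ | a <;> omega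
  apply Tg_of_U (by omega)
  rcases Uloop_spec hU ha (by omega) with c | ⟨b, hb, c⟩
  · simp only [UR, Nat.blt_eq, fac_eq, Mf_eq, Nat.add_sub_cancel_left] at c
    refine RL hr hk hB ha hμ ((cum_U hμ h1 _).trans ?_) c
    rw [hs]; exact add_le_add (cb_le_cbF _ _) (cb_le_cbF _ _)
  · simp only [UZ, Nat.blt_eq, fac_eq] at c
    have p : (0 : ℝ) < b := by exact_mod_cast (by omega : 0 < b)
    refine ZL (hr.wt hk) hμ (hook_closed (c := (b * b + (a + k : ℕ)) / (2 * b)) (by positivity)
      (hr.wt hk) (hB.mono hb hb) (le_of_eq (by field_simp))) (hs ▸ zz_U hμ h1) ?_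
    rw [← pow_mul, div_pow, mul_comm (a + k) 2, ← mul_div_assoc, div_mul_eq_mul_div,
      div_lt_iff₀ (by positivity)]
    exact_mod_cast c

theorem cum_threes (ν : Multiset ℕ) (t : ℕ) :
    cum (ν + Multiset.replicate t 3) 1 = cum ν 1 ∧
      cum (ν + Multiset.replicate t 3) 4 = cum ν 4 + t * cum ν 1 := by
  induction t with
  | zero => simp
  | succ t ih =>
    rw [Multiset.replicate_succ, Multiset.add_cons, cum_cons, cum_cons, ih.1, ih.2]
    simp only [Nat.reduceLeDiff, if_true, if_false, Nat.reduceSub]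
    exact ⟨rfl, by ring⟩

theorem four_sound (hr : Row Y Y' a) (hk : Wt Y' 4) (hB : Box Y a a) (hμ : ∀ r ∈ μ, 0 < r)
    (hs : μ.sum = a + 4) (h1 : μ.count 1 ≤ 1) (hd : 80 ≤ a) : Tg (a + 4) μ Y := by
  refine RL hr hk hB (by omega) hμ (cum_J hμ _) ?_
  have b := mul_count_le 2 μ
  rw [show min 4 (2 * a - 1) = 4 by omega, (cum_threes _ _).2, hs]
  rw [hs] at b
  obtain ⟨e, rfl⟩ : ∃ e, a = e + 80 := ⟨a - 80, by omega⟩
  have hM : Mn (e + 80) 4 * (e + 77) ≤ (e + 81).factorial := by
    unfold Mn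
    rw [show 4 / (e + 80) = 0 from Nat.div_eq_of_lt (by omega),
      show 4 % (e + 80) = 4 from Nat.mod_eq_of_lt (by omega), Nat.factorial_zero, one_mul]
    exact Nat.div_mul_le_self _ _
  have hF : (e + 80 + 4).factorial = (e + 84) * ((e + 83) * ((e + 82) * (e + 81).factorial)) := rfl
  have hp : 0 < (e + 81).factorial := Nat.factorial_pos _
  have key : ∀ C D N : ℕ, C * 24 * D < N * ((e + 84) * (e + 83) * (e + 82) * (e + 77)) →
      C * (Mn (e + 80) 4 * Nat.factorial 4) * D < N * (e + 80 + 4).factorial := by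
    intro C D N h
    apply lt_of_mul_lt_mul_right _ (Nat.zero_le (e + 77))
    calc C * (Mn (e + 80) 4 * Nat.factorial 4) * D * (e + 77)
        = C * 24 * D * (Mn (e + 80) 4 * (e + 77)) := by
          rw [show Nat.factorial 4 = 24 from rfl]; ring
      _ ≤ C * 24 * D * (e + 81).factorial := Nat.mul_le_mul_left _ hM
      _ < N * ((e + 84) * (e + 83) * (e + 82) * (e + 77)) * (e + 81).factorial :=
          Nat.mul_lt_mul_of_pos_right h hp
      _ = _ := by rw [hF]; ring
  apply key
  generalize μ.count 2 = j at *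
  have hc : 2 * j.choose 2 ≤ j * j := by
    rw [Nat.choose_two_right]
    exact (Nat.mul_div_le _ _).trans (Nat.mul_le_mul_left _ (by omega))
  obtain h | h : μ.count 1 = 0 ∨ μ.count 1 = 1 := by omega
  · rw [h, Multiset.replicate_zero, zero_add, cum_twos, cum_twos]
    have ht : (e + 80 + 4 - 0 - 2 * j) / 3 ≤ e + 84 := by omega
    generalize (e + 80 + 4 - 0 - 2 * j) / 3 = t at *
    simp only [cb, tN, tD, sum_range_succ, if_true, Nat.reduceDiv, range_zero, sum_empty,
      Nat.choose_zero_right, Nat.choose_one_right, zero_add, show e + 80 + 4 - 1 = e + 83 by omega]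
    have : 1 + j + j.choose 2 + t * 1 ≤ (e + 84) * (e + 84) := by nlinarith
    calc _ ≤ (e + 84) * (e + 84) * 24 * (e + 83) := by gcongr
      _ < _ := by nlinarith [Nat.zero_le (e ^ 4), Nat.zero_le (e ^ 3), Nat.zero_le (e ^ 2)]
  · rw [h, Multiset.replicate_one, Multiset.singleton_add, cum_cons, cum_cons, cum_twos, cum_twos,
      cum_twos, cum_twos]
    have ht : 3 * ((e + 80 + 4 - 1 - 2 * j) / 3) ≤ e + 84 := by omega
    generalize (e + 80 + 4 - 1 - 2 * j) / 3 = t at *
    simp only [cb, tN, tD, sum_range_succ, Nat.reduceDiv, range_zero, sum_empty, Nat.reduceLeDiff,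
      Nat.choose_zero_right, Nat.choose_one_right, zero_add, show e + 80 + 4 - 1 = e + 83 by omega,
      show e + 80 + 4 - 2 = e + 82 by omega, show e + 80 + 4 - 3 = e + 81 by omega, if_true,
      Nat.reduceSub, one_ne_zero, if_false, le_refl]
    split_ifs with hj
    · subst hj
      have : 1 + 0 + Nat.choose 0 2 + (1 + 0) + t * (1 + 1) ≤ e + 84 := by
        rw [Nat.choose_zero_succ]; omega
      calc _ ≤ (e + 84) * 24 * ((e + 84) * (e + 81)) :=
            Nat.mul_le_mul_right _ (Nat.mul_le_mul_right _ this)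
        _ < _ := by nlinarith [Nat.zero_le (e ^ 4), Nat.zero_le (e ^ 3), Nat.zero_le (e ^ 2)]
    · have hj' : 1 ≤ j := Nat.pos_of_ne_zero hj
      have : 1 + j + j.choose 2 + (1 + j) + t * (1 + 1) ≤ j * (2 * (e + 84)) := by nlinarith
      calc _ ≤ j * (2 * (e + 84)) * 24 * ((e + 83) * (e + 82)) := by gcongr
        _ = 2 * j * ((e + 84) * (e + 83) * (e + 82) * 24) := by ring
        _ < _ := Nat.mul_lt_mul_of_pos_left
          (Nat.mul_lt_mul_of_pos_left (show 24 < e + 77 by omega)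
            (Nat.mul_pos (Nat.mul_pos (Nat.succ_pos _) (Nat.succ_pos _)) (Nat.succ_pos _)))
          (by omega)

end

end Pool.Agent.MP_f0a921_al

end

section

/-! The numerical inequalities for large degree. -/

namespace Pool.Agent.MP_f0a921_al
open Finset Function

theorem choose_half {n t s : ℕ} (h : t ≤ s) (hs : s ≤ n / 2) : n.choose t ≤ n.choose s := by
  induction s, h using Nat.le_induction with
  | base => exact le_rfl
  | succ s _ ih => exact (ih (by omega)).trans (Nat.choose_le_succ_of_lt_half_left (by omega))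

theorem choose_mid {n t s : ℕ} (h : t ≤ s) (hs : s + t ≤ n) : n.choose t ≤ n.choose s := by
  rcases le_or_gt s (n / 2) with h1 | h1
  · exact choose_half h h1
  · rw [← Nat.choose_symm (show s ≤ n by omega)]
    exact choose_half (by omega) (by omega)

theorem cb_le (m : ℕ) {u u' : ℕ} (h : u ≤ u') : cb m u ≤ (u' + 1) * m.choose (min u' (m / 2)) := by
  have : cb m u ≤ (u + 1) * m.choose (min u' (m / 2)) := by
    have := sum_le_card_nsmul (range (u + 1)) (fun i => m.choose i) (m.choose (min u' (m / 2)))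
      fun i hi => by
        have := mem_range.mp hi
        rcases le_total u' (m / 2) with h1 | h1
        · rw [min_eq_left h1]; exact choose_half (by omega) h1
        · rw [min_eq_right h1]; exact Nat.choose_le_middle _ _
    simpa [cb] using this
  exact this.trans (Nat.mul_le_mul_right _ (by omega))

theorem Mn_le (a k : ℕ) :
    Mn a k * ((k / a).factorial * (a - k % a + k / a + 1)) ≤ (a + k / a + 1).factorial :=
  Nat.div_mul_le_self _ _

theorem pow_le_fac_choose (n r : ℕ) : (n + 1 - r) ^ r ≤ r.factorial * n.choose r := by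
  rw [← Nat.descFactorial_eq_factorial_mul_choose]; exact Nat.pow_sub_le_descFactorial n r

theorem regA_num {a k : ℕ} (hd : 625 ≤ a + k) (h5 : 5 ≤ k) (hk : k ≤ a) :
    (k / 2 + 1) * (a + 1) * ((a + k - 1) * (a + k - 2)) <
      (a + k - (a + k) / 2).choose (k - k / 2) * (a - k + 1) := by
  have hD : (a + k - 1) * (a + k - 2) ≤ (a + k) * (a + k) := Nat.mul_le_mul (by omega) (by omega)
  generalize (a + k - 1) * (a + k - 2) = D at *
  rcases le_or_gt k 10 with h | h
  · have h1 := choose_mid (n := a + k - (a + k) / 2) (t := 3) (s := k - k / 2) (by omega) (by omega)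
    have h2 := pow_le_fac_choose (a + k - (a + k) / 2) 3
    obtain ⟨x, hx⟩ : ∃ x, a + k - (a + k) / 2 + 1 - 3 = x + 311 :=
      ⟨a + k - (a + k) / 2 + 1 - 3 - 311, by omega⟩
    rw [hx, show Nat.factorial 3 = 6 from rfl] at h2
    have h3 : D ≤ (2 * x + 626) * (2 * x + 626) :=
      hD.trans (Nat.mul_le_mul (by omega) (by omega))
    have h4 : 10 * (a + 1) ≤ 11 * (a - k + 1) := by omega
    have h6 : 396 * ((2 * x + 626) * (2 * x + 626)) < 10 * (x + 311) ^ 3 := by
      nlinarith [Nat.zero_le (x ^ 3), Nat.zero_le (x ^ 2)]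
    generalize (a + k - (a + k) / 2).choose (k - k / 2) = C at *
    generalize (a + k - (a + k) / 2).choose 3 = C' at *
    have h7 : 396 * D < 60 * C := by omega
    apply lt_of_mul_lt_mul_left _ (Nat.zero_le 60)
    calc 60 * ((k / 2 + 1) * (a + 1) * D) = 6 * (k / 2 + 1) * (10 * (a + 1)) * D := by ring
      _ ≤ 6 * 6 * (11 * (a - k + 1)) * D := by gcongr; omega
      _ = 396 * D * (a - k + 1) := by ring
      _ < 60 * C * (a - k + 1) := Nat.mul_lt_mul_of_pos_right h7 (by omega)
      _ = _ := by ring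
  · have h1 := choose_mid (n := a + k - (a + k) / 2) (t := 6) (s := k - k / 2) (by omega) (by omega)
    have h2 := pow_le_fac_choose (a + k - (a + k) / 2) 6
    obtain ⟨x, hx⟩ : ∃ x, a + k - (a + k) / 2 + 1 - 6 = x := ⟨_, rfl⟩
    rw [hx, show Nat.factorial 6 = 720 from rfl] at h2
    have h3 : a + k ≤ 3 * x := by omega
    have h4 : 308 ≤ x := by omega
    have h6 : (k / 2 + 1) * (a + 1) * D ≤ (3 * x) * (3 * x) * ((3 * x) * (3 * x)) :=
      Nat.mul_le_mul (Nat.mul_le_mul (by omega) (by omega)) (hD.trans (Nat.mul_le_mul h3 h3))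
    have h7 : 720 * ((3 * x) * (3 * x) * ((3 * x) * (3 * x))) < x ^ 6 := by
      have : 58320 < x ^ 2 := by nlinarith
      calc _ = 58320 * x ^ 4 := by ring
        _ < x ^ 2 * x ^ 4 := Nat.mul_lt_mul_of_pos_right this (by positivity)
        _ = _ := by ring
    have h8 := Nat.le_mul_of_pos_right ((a + k - (a + k) / 2).choose (k - k / 2))
      (show 0 < a - k + 1 by omega)
    omega

theorem regA {a k : ℕ} (hd : 625 ≤ a + k) (h5 : 5 ≤ k) (hk : k ≤ a) :
    (cb ((a + k) / 2) (min k (2 * a - 1) / 2) + cb ((a + k) / 2) ((min k (2 * a - 1) - 1) / 2)) *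
      (Mn a k * k.factorial) * ((a + k - 1) * (a + k - 2)) < 2 * (a + k).factorial := by
  have hM : Mn a k * (a - k + 1) ≤ (a + 1) * a.factorial := by
    have := Mn_le a k
    rcases hk.lt_or_eq with h | rfl
    · rwa [Nat.div_eq_of_lt h, Nat.mod_eq_of_lt h, Nat.factorial_zero, one_mul] at this
    · rw [Nat.div_self (by omega), Nat.mod_self, Nat.factorial_one, one_mul, Nat.sub_zero,
        Nat.factorial_succ, mul_comm] at this
      rw [Nat.sub_self, zero_add, mul_one]
      exact Nat.le_of_mul_le_mul_left this (by omega)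
  have h1 := cb_le ((a + k) / 2) (u := min k (2 * a - 1) / 2) (u' := k / 2) (by omega)
  have h2 := cb_le ((a + k) / 2) (u := (min k (2 * a - 1) - 1) / 2) (u' := k / 2) (by omega)
  rw [show min (k / 2) ((a + k) / 2 / 2) = k / 2 by omega] at h1 h2
  have h3 : ((a + k) / 2).choose (k / 2) * (a + k - (a + k) / 2).choose (k - k / 2) ≤
      (a + k).choose k := by
    conv_rhs => rw [show a + k = (a + k) / 2 + (a + k - (a + k) / 2) by omega, Nat.add_choose_eq]
    exact single_le_sum (f := fun ij : ℕ × ℕ => ((a + k) / 2).choose ij.1 *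
      (a + k - (a + k) / 2).choose ij.2) (fun _ _ => Nat.zero_le _)
      (a := (k / 2, k - k / 2)) (mem_antidiagonal.mpr (by simp only; omega))
  have h4 := regA_num hd h5 hk
  have h6 : 0 < ((a + k) / 2).choose (k / 2) := Nat.choose_pos (by omega)
  rw [← Nat.add_choose_mul_factorial_mul_factorial]
  have p1 := a.factorial_pos
  have p2 := k.factorial_pos
  generalize (a + k - 1) * (a + k - 2) = D at *
  generalize ((a + k) / 2).choose (k / 2) = C at *
  generalize (a + k - (a + k) / 2).choose (k - k / 2) = C' at *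
  apply lt_of_mul_lt_mul_right _ (Nat.zero_le (a - k + 1))
  calc _ ≤ (2 * ((k / 2 + 1) * C)) * (Mn a k * k.factorial) * D * (a - k + 1) := by
        gcongr; omega
    _ = 2 * ((k / 2 + 1) * C) * k.factorial * D * (Mn a k * (a - k + 1)) := by ring
    _ ≤ 2 * ((k / 2 + 1) * C) * k.factorial * D * ((a + 1) * a.factorial) := by gcongr
    _ = 2 * C * a.factorial * k.factorial * ((k / 2 + 1) * (a + 1) * D) := by ring
    _ < 2 * C * a.factorial * k.factorial * (C' * (a - k + 1)) :=
        Nat.mul_lt_mul_of_pos_left h4 (by positivity)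
    _ = 2 * (C * C' * a.factorial * k.factorial) * (a - k + 1) := by ring
    _ ≤ _ := by gcongr

theorem two_pow_choose (m i : ℕ) : 2 ^ i * m.choose i ≤ (2 * m).choose i := by
  have : 2 ^ i * m.descFactorial i ≤ (2 * m).descFactorial i := by
    induction i with
    | zero => simp
    | succ i ih =>
      rw [Nat.descFactorial_succ, Nat.descFactorial_succ, pow_succ]
      calc _ = (2 * (m - i)) * (2 ^ i * m.descFactorial i) := by ring
        _ ≤ _ := Nat.mul_le_mul (by omega) ih
  rw [Nat.descFactorial_eq_factorial_mul_choose, Nat.descFactorial_eq_factorial_mul_choose,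
    mul_left_comm] at this
  exact Nat.le_of_mul_le_mul_left this i.factorial_pos

theorem regB {a k : ℕ} (ha : 2 ≤ a) (hk : a < k)
    (h : (a + k) ^ (k / a + 4) < 2 ^ min (a - 1) ((a + k) / 2 / 2)) :
    (cb ((a + k) / 2) (min k (2 * a - 1) / 2) + cb ((a + k) / 2) ((min k (2 * a - 1) - 1) / 2)) *
      (Mn a k * k.factorial) * ((a + k - 1) * (a + k - 2)) < 2 * (a + k).factorial := by
  have hq : k / a + 1 ≤ k := Nat.div_lt_self (by omega) (by omega)
  have hM : Mn a k ≤ a.factorial * (a + k) ^ (k / a + 1) := by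
    calc Mn a k ≤ _ := Nat.le_mul_of_pos_right _ (by positivity)
      _ ≤ _ := Mn_le a k
      _ = a.factorial * (a + 1).ascFactorial (k / a + 1) := by
        rw [Nat.factorial_mul_ascFactorial, add_assoc]
      _ ≤ a.factorial * (a + (k / a + 1)) ^ (k / a + 1) :=
        Nat.mul_le_mul_left _ (Nat.ascFactorial_le_pow_add _ _)
      _ ≤ _ := by gcongr
  have h1 := cb_le ((a + k) / 2) (u := min k (2 * a - 1) / 2) (u' := a - 1) (by omega)
  have h2 := cb_le ((a + k) / 2) (u := (min k (2 * a - 1) - 1) / 2) (u' := a - 1) (by omega)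
  set t := min (a - 1) ((a + k) / 2 / 2)
  have h3 : 2 ^ t * ((a + k) / 2).choose t ≤ (a + k).choose k :=
    (two_pow_choose _ _).trans ((Nat.choose_le_choose _ (show _ ≤ a + k by omega)).trans
      (choose_mid (by omega) (by omega)))
  have h6 : 0 < ((a + k) / 2).choose t := Nat.choose_pos (by omega)
  have hD : (a + k - 1) * (a + k - 2) ≤ (a + k) * (a + k) := Nat.mul_le_mul (by omega) (by omega)
  have h7 : a - 1 + 1 ≤ a + k := by omega
  have p1 := a.factorial_pos
  have p2 := k.factorial_pos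
  generalize ((a + k) / 2).choose t = C at *
  calc _ ≤ (2 * ((a - 1 + 1) * C)) * (Mn a k * k.factorial) * ((a + k - 1) * (a + k - 2)) := by
        gcongr; omega
    _ ≤ (2 * ((a + k) * C)) * (a.factorial * (a + k) ^ (k / a + 1) * k.factorial) *
        ((a + k) * (a + k)) := by gcongr
    _ = 2 * C * a.factorial * k.factorial * (a + k) ^ (k / a + 4) := by ring
    _ < 2 * C * a.factorial * k.factorial * 2 ^ t := Nat.mul_lt_mul_of_pos_left h (by positivity)
    _ = 2 * (2 ^ t * C * a.factorial * k.factorial) := by ring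
    _ ≤ 2 * ((a + k).choose k * a.factorial * k.factorial) := by gcongr
    _ = _ := by rw [Nat.add_choose_mul_factorial_mul_factorial]

theorem regB_num {a k : ℕ} {y : ℝ} (hy : 5 ≤ y) (hd : y ^ 4 = (a + k : ℕ)) (ha : 0.8 * y ^ 3 < a) :
    (a + k) ^ (k / a + 4) < 2 ^ min (a - 1) ((a + k) / 2 / 2) := by
  have y0 : 0 < y := by linarith
  have y3 : 125 ≤ y ^ 3 := le_trans (by norm_num) (pow_le_pow_left₀ (by norm_num) hy 3)
  have a0 : 0 < a := by
    have : (0 : ℝ) < a := by linarith
    exact_mod_cast this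
  have h1 : ((k / a : ℕ) : ℝ) + 1 ≤ 1.25 * y := by
    have h : (k / a + 1) * a ≤ a + k := by
      have := Nat.div_mul_le_self k a
      nlinarith
    have h' : (((k / a : ℕ) : ℝ) + 1) * a ≤ y ^ 4 := by rw [hd]; exact_mod_cast h
    by_contra hc
    push Not at hc
    have : 1.25 * y * (0.8 * y ^ 3) < (((k / a : ℕ) : ℝ) + 1) * a :=
      mul_lt_mul'' hc ha (by positivity) (by positivity)
    nlinarith
  have h2 : 0.8 * y ^ 3 - 1 ≤ (min (a - 1) ((a + k) / 2 / 2) : ℕ) := by
    rcases le_total (a - 1) ((a + k) / 2 / 2) with h | h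
    · rw [min_eq_left h, Nat.cast_sub a0]; push_cast; linarith
    · rw [min_eq_right h]
      have h3 : a + k ≤ 4 * ((a + k) / 2 / 2) + 3 := by omega
      have h4 : y ^ 4 ≤ 4 * (((a + k) / 2 / 2 : ℕ) : ℝ) + 3 := by rw [hd]; exact_mod_cast h3
      nlinarith
  have h3 : Real.log (a + k : ℕ) ≤ y + 1.546 := by
    have l1 := Real.log_le_sub_one_of_pos (show 0 < y / 4 by positivity)
    rw [Real.log_div y0.ne' (by norm_num), show (4 : ℝ) = 2 ^ 2 by norm_num, Real.log_pow] at l1
    have l2 := Real.log_two_lt_d9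
    rw [← hd, Real.log_pow]
    push_cast at l1 ⊢
    linarith
  have l3 := Real.log_two_gt_d9
  have p : (0 : ℝ) < (a + k : ℕ) := by rw [← hd]; positivity
  have : ((a + k : ℕ) : ℝ) ^ (k / a + 4) < 2 ^ min (a - 1) ((a + k) / 2 / 2) := by
    rw [← Real.log_lt_log_iff (by positivity) (by positivity), Real.log_pow, Real.log_pow]
    have q : (0 : ℝ) ≤ ((k / a : ℕ) : ℝ) := Nat.cast_nonneg _
    calc ((k / a + 4 : ℕ) : ℝ) * Real.log (a + k : ℕ) ≤ (1.25 * y + 3) * (y + 1.546) := by
          rw [Nat.cast_add]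
          exact mul_le_mul (by push_cast; linarith) h3 (Real.log_natCast_nonneg _) (by positivity)
      _ < (0.8 * y ^ 3 - 1) * 0.693 := by nlinarith [mul_le_mul_of_nonneg_left hy (sq_nonneg y)]
      _ ≤ _ := mul_le_mul h2 (by linarith) (by norm_num) (Nat.cast_nonneg _)
  exact_mod_cast this

theorem pow18 {d : ℕ} (hd : 625 ≤ d) : d ^ 18 < 2 ^ d := by
  have h : ∀ s, 8 ≤ s → 18 * (s + 1) ≤ 2 ^ s := by
    intro s hs
    induction s, hs using Nat.le_induction with
    | base => norm_num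
    | succ s _ ih => rw [pow_succ]; omega
  calc d ^ 18 < (18 * (d / 18 + 1)) ^ 18 := Nat.pow_lt_pow_left (by omega) (by norm_num)
    _ ≤ (2 ^ (d / 18)) ^ 18 := Nat.pow_le_pow_left (h _ (by omega)) _
    _ ≤ 2 ^ d := by rw [← pow_mul]; exact Nat.pow_le_pow_right (by norm_num) (by omega)

theorem regZ {d : ℕ} {y : ℝ} (hd' : 625 ≤ d) (hd : y ^ 4 = d) :
    (Yf 2 d d : ℝ) * ((0.431 * y ^ 3) ^ d) ^ 2 * (((d - 1) * (d - 2) : ℕ) : ℝ) ^ 2 <
      ((2 : ℕ) : ℝ) ^ 2 * d.factorial ^ 2 := by
  have p0 : (625 : ℝ) ≤ d := by exact_mod_cast hd'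
  have p1 : (0 : ℝ) < d.factorial := by exact_mod_cast d.factorial_pos
  have h1 : (Yf 2 d d : ℝ) ^ 2 ≤ (d + 1) * d.factorial := by
    exact_mod_cast Yf_two_sq d d
  have h2 : (((d - 1) * (d - 2) : ℕ) : ℝ) ≤ d * d := by
    exact_mod_cast Nat.mul_le_mul (Nat.sub_le d 1) (Nat.sub_le d 2)
  have h3 : (d : ℝ) ^ d ≤ d.factorial * Real.exp 1 ^ d := by
    have := Real.pow_div_factorial_le_exp (d : ℝ) (by positivity) d
    rw [div_le_iff₀ p1] at this
    rwa [← Real.exp_nat_mul, mul_one, mul_comm]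
  have h4 : (0.431 : ℝ) ^ 4 * Real.exp 1 ^ 3 ≤ 0.7 := by
    have := pow_le_pow_left₀ (Real.exp_pos 1).le Real.exp_one_lt_d9.le 3
    nlinarith
  have h5 : (d : ℝ) ^ 9 * 0.7 ^ d < 1 := by
    apply lt_of_pow_lt_pow_left₀ 2 (by norm_num)
    have a1 : (d : ℝ) ^ 18 < 2 ^ d := by exact_mod_cast pow18 hd'
    calc ((d : ℝ) ^ 9 * 0.7 ^ d) ^ 2 = (d : ℝ) ^ 18 * (0.7 ^ 2) ^ d := by
          rw [mul_pow, ← pow_mul, ← pow_mul, ← pow_mul, mul_comm d 2]
      _ < 2 ^ d * (0.7 ^ 2) ^ d := by gcongr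
      _ = (2 * 0.7 ^ 2) ^ d := (mul_pow _ _ _).symm
      _ ≤ 1 ^ 2 := by rw [one_pow]; exact pow_le_one₀ (by norm_num) (by norm_num)
  have h6 : (((0.431 * y ^ 3) ^ d) ^ 2) ^ 2 = (0.431 ^ 4) ^ d * ((d : ℝ) ^ d) ^ 3 := by
    have : ((d : ℝ) ^ d) ^ 3 = ((y ^ 3) ^ 4) ^ d := by
      rw [← pow_mul, mul_comm d 3, pow_mul, ← pow_mul y 3 4, mul_comm 3 4, pow_mul y 4 3, hd]
    rw [this, ← mul_pow, ← mul_pow, ← pow_mul, ← pow_mul, ← pow_mul]
    congr 1; ring
  apply lt_of_pow_lt_pow_left₀ 2 (by positivity)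
  rw [mul_pow, mul_pow, h6]
  calc _ ≤ ((d + 1) * d.factorial) * ((0.431 ^ 4) ^ d * (d.factorial * Real.exp 1 ^ d) ^ 3) *
        (((d : ℝ) * d) ^ 2) ^ 2 := by gcongr
    _ = d.factorial ^ 4 * ((d + 1) * d ^ 8 * (0.431 ^ 4 * Real.exp 1 ^ 3) ^ d) := by
        rw [mul_pow (0.431 ^ 4 : ℝ), ← pow_mul (Real.exp 1) 3, mul_comm 3 d, pow_mul (Real.exp 1)]
        ring
    _ ≤ d.factorial ^ 4 * ((2 * d) * d ^ 8 * 0.7 ^ d) := by gcongr; linarith
    _ = d.factorial ^ 4 * (2 * (d ^ 9 * 0.7 ^ d)) := by ring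
    _ < d.factorial ^ 4 * 16 := by gcongr; linarith
    _ = _ := by push_cast; ring

theorem big_sound {Y Y' : Finset ℕ} {a k : ℕ} {μ : Multiset ℕ} (hr : Row Y Y' a) (hk : Wt Y' k)
    (hB : Box Y a a) (hμ : ∀ r ∈ μ, 0 < r) (hs : μ.sum = a + k) (h1 : μ.count 1 ≤ 1) (h5 : 5 ≤ k)
    (hd : 625 ≤ a + k) : Tg (a + k) μ Y := by
  have hb := wt_le_box hB (hr.wt hk)
  have ha : 2 ≤ a := by
    by_contra h
    have : a ≤ 1 := by omega
    nlinarith
  apply Tg_of_U (by omega)
  rcases le_or_gt k a with h | h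
  · exact RL hr hk hB (by omega) hμ (hs ▸ cum_U hμ h1 _) (regA hd h5 h)
  set y := √(√((a + k : ℕ) : ℝ))
  have hy4 : y ^ 4 = (a + k : ℕ) := by
    rw [show y ^ 4 = (y ^ 2) ^ 2 by ring, Real.sq_sqrt (Real.sqrt_nonneg _),
      Real.sq_sqrt (Nat.cast_nonneg _)]
  have hy : 5 ≤ y := by
    apply le_of_pow_le_pow_left₀ (n := 4) (by norm_num) (Real.sqrt_nonneg _)
    rw [hy4]; exact_mod_cast hd
  rcases lt_or_ge (0.8 * y ^ 3) (a : ℝ) with h2 | h2
  · exact RL hr hk hB (by omega) hμ (hs ▸ cum_U hμ h1 _) (regB ha h (regB_num hy hy4 h2))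
  · refine ZL (hr.wt hk) hμ (hook_closed (c := 0.431 * y ^ 3) (by positivity) (hr.wt hk) hB ?_)
      (hs ▸ zz_U hμ h1) (regZ hd hy4)
    have p : (0 : ℝ) < a := by exact_mod_cast (by omega : 0 < a)
    have h3 : y ^ 2 ≤ a := by
      apply le_of_pow_le_pow_left₀ (n := 2) (by norm_num) p.le
      rw [← pow_mul, hy4, sq]; exact_mod_cast hb
    have y2 : 25 ≤ y ^ 2 := by nlinarith
    rw [← hy4]
    rcases le_total (a : ℝ) (0.662 * y ^ 3) with h4 | h4
    · have : y ^ 4 / a ≤ y ^ 2 := by rw [div_le_iff₀ p]; nlinarith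
      nlinarith
    · have : y ^ 4 / a ≤ 0.062 * y ^ 3 := by
        rw [div_le_iff₀ p]
        calc y ^ 4 ≤ 0.062 * 0.662 * y ^ 2 * y ^ 4 := by nlinarith [pow_pos (show 0 < y by linarith) 4]
          _ = 0.062 * y ^ 3 * (0.662 * y ^ 3) := by ring
          _ ≤ _ := by gcongr
      linarith

end Pool.Agent.MP_f0a921_al

end

section

/-! Kernel evaluation of a numerical checker. -/

namespace Pool.Agent.MP_f0a921_al

theorem numU2_364 : allB 50 (fun i => Ud (364 + i)) = true := by decide +kernel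

theorem numU2_414 : allB 50 (fun i => Ud (414 + i)) = true := by decide +kernel

theorem numU2_464 : allB 50 (fun i => Ud (464 + i)) = true := by decide +kernel

theorem numU2 (d : ℕ) (h1 : 364 ≤ d) (h2 : d ≤ 513) : Ud d = true := by
  by_cases h : d < 414
  · have := allB_iff numU2_364 (d - 364) (by omega)
    rwa [show 364 + (d - 364) = d by omega] at this
  by_cases h : d < 464
  · have := allB_iff numU2_414 (d - 414) (by omega)
    rwa [show 414 + (d - 414) = d by omega] at this
  have := allB_iff numU2_464 (d - 464) (by omega)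
  rwa [show 464 + (d - 464) = d by omega] at this

end Pool.Agent.MP_f0a921_al

end
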