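import Pool.Agent.MP_f0a921_al.NumDef
import Pool.Agent.MP_f0a921_al.ExT2
import Pool.Agent.MP_f0a921_al.Vec

section

/-! Kernel evaluation of a numerical checker. -/

namespace Pool.Agent.MP_f0a921_al

theorem numU1_84 : allB 70 (fun i => Ud (84 + i)) = true := by decide +kernel

theorem numU1_154 : allB 70 (fun i => Ud (154 + i)) = true := by decide +kernel

theorem numU1_224 : allB 70 (fun i => Ud (224 + i)) = true := by decide +kernel

theorem numU1_294 : allB 70 (fun i => Ud (294 + i)) = true := by decide +kernel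

theorem numU1 (d : ℕ) (h1 : 84 ≤ d) (h2 : d ≤ 363) : Ud d = true := by
  by_cases h : d < 154
  · have := allB_iff numU1_84 (d - 84) (by omega)
    rwa [show 84 + (d - 84) = d by omega] at this
  by_cases h : d < 224
  · have := allB_iff numU1_154 (d - 154) (by omega)
    rwa [show 154 + (d - 154) = d by omega] at this
  by_cases h : d < 294
  · have := allB_iff numU1_224 (d - 224) (by omega)
    rwa [show 224 + (d - 224) = d by omega] at this
  have := allB_iff numU1_294 (d - 294) (by omega)
  rwa [show 294 + (d - 294) = d by omega] at this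

end Pool.Agent.MP_f0a921_al

end

section

/-! Kernel evaluation of the character table checker. -/

namespace Pool.Agent.MP_f0a921_al

theorem tchkB : allB 9 (fun i => tchk tbB 1 (i + 1)) = true := by decide +kernel

theorem bchkB : bchk tbB = true := by decide +kernel

theorem tchkA1 : allB 15 (fun i => tchk tbA 2 (i + 1)) = true := by decide +kernel

theorem tchkA16 : tchk tbA 2 16 = true := by decide +kernel

theorem tchkA17 : tchk tbA 2 17 = true := by decide +kernel

theorem tchkA18 : tchk tbA 2 18 = true := by decide +kernel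

theorem tbA_zero : (tbA 0).find true 524287 = 2147483649 ∧ (tbA 0).find false 524287 = 1 := by
  decide +kernel

theorem tbB_zero : (tbB 0).find true 524287 = 2147483649 ∧ (tbB 0).find false 524287 = 1 := by
  decide +kernel

end Pool.Agent.MP_f0a921_al

end

section

/-! Every irreducible character of the symmetric group is a Frobenius coefficient. -/

namespace Pool.Agent.MP_f0a921_al
open Finset Function

variable {n : ℕ}

def dlt (γ β : Fin n → ℕ) : ℤ := if β = γ then 1 else 0

def cntF (ι : Type) [Fintype ι] [DecidableEq ι] (w : ι → ℕ) (γ β : Fin n → ℕ) : ℤ :=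
  ∑ g : ι → Fin n, if ∀ i, γ i + ∑ x, (if g x = i then w x else 0) = β i then 1 else 0

theorem FU_dlt_fin (γ : Fin n → ℕ) (m : ℕ) (w : Fin m → ℕ) (β : Fin n → ℕ) :
    FU (dlt γ) (univ.val.map w) β = cntF (Fin m) w γ β := by
  induction m generalizing β with
  | zero =>
    simp only [cntF, dlt, univ_eq_empty, empty_val, Multiset.map_zero, FU_zero, sum_empty, add_zero,
      univ_unique, sum_singleton]
    congr 1
    apply propext
    exact ⟨fun h i => by rw [h], fun h => funext fun i => (h i).symm⟩
  | succ m ih =>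
    have e : (univ : Finset (Fin (m + 1))).val.map w =
        w 0 ::ₘ (univ : Finset (Fin m)).val.map (fun i => w i.succ) := by
      rw [Fin.univ_val_map, Fin.univ_val_map, List.ofFn_succ]; rfl
    rw [e, FU_cons]
    unfold U
    simp only [ih]
    unfold cntF
    rw [← (Fin.consEquiv (fun _ : Fin (m + 1) => Fin n)).sum_comp, Fintype.sum_prod_type]
    refine sum_congr rfl fun j _ => ?_
    simp only [Fin.consEquiv_apply, Fin.sum_univ_succ, Fin.cons_zero, Fin.cons_succ]
    split_ifs with h
    · refine sum_congr rfl fun g _ => ?_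
      congr 1
      apply propext
      refine forall_congr' fun i => ?_
      by_cases hij : i = j
      · subst hij; simp only [update_self, if_true]; omega
      · rw [update_of_ne hij, if_neg (fun h => hij h.symm), zero_add]
    · symm
      refine sum_eq_zero fun g _ => if_neg fun h' => ?_
      have := h' j
      simp only [if_true] at this
      omega

theorem FU_dlt (ι : Type) [Fintype ι] [DecidableEq ι] (w : ι → ℕ) (γ β : Fin n → ℕ) :
    FU (dlt γ) (univ.val.map w) β = cntF ι w γ β := by
  let e := (Fintype.equivFin ι).symm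
  have h1 : (univ : Finset ι).val.map w = univ.val.map (fun i => w (e i)) := by
    conv_lhs => rw [← Finset.map_univ_equiv e]
    rw [Finset.map_val, Multiset.map_map]; rfl
  rw [h1, FU_dlt_fin]
  unfold cntF
  rw [← (Equiv.arrowCongr e (Equiv.refl (Fin n))).sum_comp]
  refine sum_congr rfl fun g _ => ?_
  congr 1
  apply propext
  refine forall_congr' fun i => ?_
  rw [← e.sum_comp]
  simp

section orbits
variable {d : ℕ} (σ : Equiv.Perm (Fin d))

abbrev Orb := Quotient (Equiv.Perm.SameCycle.setoid σ)

noncomputable def osz (q : Orb σ) : ℕ := by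
  classical exact (univ.filter fun x => (Quotient.mk _ x : Orb σ) = q).card

theorem mk_eq_iff (x : Fin d) (q : Orb σ) :
    (Quotient.mk _ x : Orb σ) = q ↔ σ.SameCycle q.out x := by
  conv_lhs => rw [← Quotient.out_eq q]
  rw [Quotient.eq]
  exact Equiv.Perm.sameCycle_comm

open Classical in
theorem orb_parts : (univ : Finset (Orb σ)).val.map (osz σ) = σ.partition.parts := by
  rw [Equiv.Perm.parts_partition, ← Multiset.filter_add_not (fun q : Orb σ => σ q.out ≠ q.out)
    univ.val, Multiset.map_add]
  congr 1
  · rw [Equiv.Perm.cycleType_def]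
    refine Multiset.map_eq_map_of_bij_of_nodup _ _ (univ.nodup.filter _) (Finset.nodup _)
      (fun q _ => σ.cycleOf q.out) ?_ ?_ ?_ ?_
    · intro q hq
      have := (Multiset.mem_filter.mp hq).2
      exact Equiv.Perm.cycleOf_mem_cycleFactorsFinset_iff.mpr (Equiv.Perm.mem_support.mpr this)
    · intro q hq q' hq' h
      have h1 := Equiv.Perm.mem_support.mpr (Multiset.mem_filter.mp hq).2
      have h2 := Equiv.Perm.mem_support.mpr (Multiset.mem_filter.mp hq').2
      have := (Equiv.Perm.sameCycle_iff_cycleOf_eq_of_mem_support h1 h2).mpr h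
      rw [← (mk_eq_iff σ _ q).mpr this, Quotient.out_eq]
    · intro c hc
      have hc' : c ∈ σ.cycleFactorsFinset := hc
      obtain ⟨x, hx⟩ := (Equiv.Perm.mem_cycleFactorsFinset_iff.mp hc').1.nonempty_support
      have h1 := Equiv.Perm.cycle_is_cycleOf hx hc'
      have h2 : σ.SameCycle (Quotient.mk _ x : Orb σ).out x := (mk_eq_iff σ _ _).mp rfl
      have h3 : x ∈ σ.support := Equiv.Perm.mem_cycleFactorsFinset_support_le hc' hx
      refine ⟨Quotient.mk _ x, Multiset.mem_filter.mpr ⟨mem_val.mpr (mem_univ _), fun h => ?_⟩, ?_⟩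
      · have := h2.eq_of_left h
        rw [this] at h
        exact Equiv.Perm.mem_support.mp h3 h
      · rw [h1]; exact h2.cycleOf_eq
    · intro q hq
      have := (Multiset.mem_filter.mp hq).2
      unfold osz
      simp only [comp_apply]
      congr 1
      ext x
      rw [Equiv.Perm.mem_support_cycleOf_iff' this, mem_filter, mk_eq_iff]; simp
  · rw [Multiset.eq_replicate]
    constructor
    · rw [Multiset.card_map, ← card_univ, ← card_sdiff_of_subset (subset_univ _)]
      change (univ.filter fun q : Orb σ => ¬ σ q.out ≠ q.out).card = _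
      refine card_bij (fun q _ => q.out) ?_ ?_ ?_
      · intro q hq
        simpa using hq
      · intro q _ q' _ h
        rw [← Quotient.out_eq q, ← Quotient.out_eq q', h]
      · intro x hx
        have hx' : σ x = x := by simpa using hx
        have h2 : σ.SameCycle (Quotient.mk _ x : Orb σ).out x := (mk_eq_iff σ _ _).mp rfl
        have h3 := h2.eq_of_right hx'
        exact ⟨Quotient.mk _ x, by simp [h3, hx'], h3⟩
    · intro b hb
      obtain ⟨q, hq, rfl⟩ := Multiset.mem_map.mp hb
      have h1 : σ q.out = q.out := not_not.mp (Multiset.mem_filter.mp hq).2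
      unfold osz
      rw [card_eq_one]
      refine ⟨q.out, ?_⟩
      ext x
      rw [mem_filter, mk_eq_iff, mem_singleton]
      simp only [mem_univ, true_and]
      exact ⟨fun h => (h.eq_of_left h1).symm, fun h => h ▸ Equiv.Perm.SameCycle.refl _ _⟩

/-- colourings with prescribed content -/
def Col (d : ℕ) (γ β : Fin n → ℕ) : Type :=
  {f : Fin d → Fin n // ∀ i, γ i + (univ.filter fun x => f x = i).card = β i}

instance (d : ℕ) (γ β : Fin n → ℕ) : Fintype (Col d γ β) := by unfold Col; infer_instance
instance (d : ℕ) (γ β : Fin n → ℕ) : DecidableEq (Col d γ β) := by unfold Col; infer_instance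

def act (γ β : Fin n → ℕ) (g : Equiv.Perm (Fin d)) (f : Col d γ β) : Col d γ β :=
  ⟨f.1 ∘ g, fun i => by
    rw [← f.2 i]
    congr 1
    exact card_bij (fun x _ => g x) (by simp) (by simp)
      (fun y hy => ⟨g.symm y, by simpa using hy, by simp⟩)⟩

theorem inv_of_same {f : Fin d → Fin n} (hf : f ∘ σ = f) {x y : Fin d} (h : σ.SameCycle x y) :
    f x = f y := by
  obtain ⟨k, rfl⟩ := h.exists_nat_pow_eq
  induction k with
  | zero => rfl
  | succ k ih =>
    rw [pow_succ', Equiv.Perm.mul_apply]
    have := congrFun hf ((σ ^ k) x)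
    simp only [comp_apply] at this
    rw [this]; exact ih ⟨k, by simp⟩

theorem FU_dlt_perm (γ β : Fin n → ℕ) :
    FU (dlt γ) σ.partition.parts β = ∑ f : Col d γ β, if act γ β σ f = f then 1 else 0 := by
  classical
  rw [← orb_parts, FU_dlt]
  unfold cntF
  rw [← sum_filter, ← sum_filter]
  have key : ∀ (g : Orb σ → Fin n) (i : Fin n), ∑ q, (if g q = i then osz σ q else 0) =
      (univ.filter fun x => g (Quotient.mk _ x) = i).card := by
    intro g i
    rw [card_eq_sum_card_fiberwise (f := fun x => (Quotient.mk _ x : Orb σ)) (t := univ)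
      (fun _ _ => mem_univ _)]
    refine sum_congr rfl fun q _ => ?_
    unfold osz
    split_ifs with h
    · congr 1; ext x
      simp only [mem_filter, mem_univ, true_and]
      exact ⟨fun h' => ⟨h' ▸ h, h'⟩, fun h' => h'.2⟩
    · symm
      rw [card_eq_zero, filter_eq_empty_iff]
      intro x hx h'
      rw [mem_filter, h'] at hx
      exact h hx.2
  refine sum_bij (fun g hg => ⟨fun x => g (Quotient.mk _ x), fun i => by
    rw [← key]; exact (mem_filter.mp hg).2 i⟩) ?_ ?_ ?_ (fun _ _ => rfl)
  · intro g hg
    rw [mem_filter]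
    refine ⟨mem_univ _, Subtype.ext (funext fun x => ?_)⟩
    change g _ = g _
    congr 1
    exact Quotient.sound (Equiv.Perm.sameCycle_apply_left.mpr (Equiv.Perm.SameCycle.refl _ _))
  · intro g _ g' _ h
    funext q
    have := congrFun (congrArg Subtype.val h) q.out
    simpa using this
  · intro f hf
    have h1 : f.1 ∘ σ = f.1 := congrArg Subtype.val (mem_filter.mp hf).2
    refine ⟨Quotient.lift f.1 (fun x y h => inv_of_same σ h1 h), ?_, rfl⟩
    rw [mem_filter]
    refine ⟨mem_univ _, fun i => ?_⟩
    rw [key]; exact f.2 i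

end orbits

/-- the permutation representation on colourings -/
noncomputable def permRep (d : ℕ) (γ β : Fin n → ℕ) :
    Representation ℂ (Equiv.Perm (Fin d)) (Col d γ β → ℂ) where
  toFun g := LinearMap.funLeft ℂ ℂ (act γ β g)
  map_one' := rfl
  map_mul' _ _ := rfl

theorem permRep_char (d : ℕ) (γ β : Fin n → ℕ) (g : Equiv.Perm (Fin d)) :
    (permRep d γ β).character g = (FU (dlt γ) g.partition.parts β : ℤ) := by
  rw [FU_dlt_perm, Representation.character,
    LinearMap.trace_eq_matrix_trace ℂ (Pi.basisFun ℂ (Col d γ β)), Matrix.trace]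
  push_cast
  refine sum_congr rfl fun f _ => ?_
  simp [permRep, LinearMap.funLeft_apply, Pi.single_apply]

theorem FU_sum {ι : Type} (s : Finset ι) (c : ι → ℤ) (g : ι → (Fin n → ℕ) → ℤ) (μ : Multiset ℕ)
    (β : Fin n → ℕ) :
    FU (fun b => ∑ t ∈ s, c t * g t b) μ β = ∑ t ∈ s, c t * FU (g t) μ β := by
  induction μ using Multiset.induction_on generalizing β with
  | empty => rfl
  | cons r μ ih =>
    simp only [FU_cons, U, ih, mul_sum]
    rw [sum_comm]
    refine sum_congr rfl fun i _ => ?_
    split_ifs <;> simp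

theorem Psi_eq (μ : Multiset ℕ) (β : Fin n → ℕ) : Psi n μ β =
    ∑ τ : Equiv.Perm (Fin n), (Equiv.Perm.sign τ : ℤ) * FU (dlt (Fin.val ∘ τ)) μ β := by
  rw [← FU_sum]
  unfold Psi
  congr 2
  funext b
  rw [toV_vac_eq]
  simp [dlt]

theorem zz_add_ones (μ : Multiset ℕ) (h : 1 ∉ μ) (m : ℕ) :
    zz (μ + Multiset.replicate m 1) = m.factorial * zz μ := by
  induction m with
  | zero => simp
  | succ m ih =>
    rw [Multiset.replicate_succ, Multiset.add_cons, zz_cons, ih, Multiset.count_add,
      Multiset.count_eq_zero_of_notMem h, Multiset.count_replicate_self, Nat.factorial_succ]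
    ring

theorem card_class {d : ℕ} (g : Equiv.Perm (Fin d)) :
    (univ.filter fun h : Equiv.Perm (Fin d) => h.partition.parts = g.partition.parts).card *
      zz g.partition.parts = d.factorial := by
  have := Equiv.Perm.card_isConj_mul_eq g
  have h1 : zz g.partition.parts = (Fintype.card (Fin d) - g.cycleType.sum).factorial *
      g.cycleType.prod * ∏ n ∈ g.cycleType.toFinset, (g.cycleType.count n).factorial := by
    rw [Equiv.Perm.parts_partition (σ := g), zz_add_ones _
      (fun h => absurd (Equiv.Perm.one_lt_of_mem_cycleType h) (lt_irrefl _)),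
      Equiv.Perm.sum_cycleType, zz, mul_assoc]
  rw [h1]
  conv_rhs => rw [← Fintype.card_fin d, ← this]
  congr 1
  rw [Nat.card_eq_card_toFinset]
  congr 1
  ext h
  rw [Set.mem_toFinset, Set.mem_ofPred_eq, Equiv.Perm.partition_eq_of_isConj, mem_filter,
    Nat.Partition.ext_iff]
  simp [eq_comm]

theorem one_orbit (C : (Fin n → ℕ) → ℤ) (hC : Anti C) (N : ℕ)
    (hs : ∑ β ∈ Finset.Nat.antidiagonalTuple n N, C β * C β = n.factorial) :
    ∃ β₀ : Fin n → ℕ, Injective β₀ ∧ ∑ i, β₀ i = N ∧ (C β₀ = 1 ∨ C β₀ = -1) ∧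
      ∀ g : (Fin n → ℕ) → ℤ, Anti g →
        ∑ β ∈ Finset.Nat.antidiagonalTuple n N, C β * g β = n.factorial * (C β₀ * g β₀) := by
  have hpos : (n.factorial : ℤ) ≠ 0 := by exact_mod_cast n.factorial_ne_zero
  obtain ⟨β₀, hm, h0⟩ := exists_ne_zero_of_sum_ne_zero (hs ▸ hpos)
  have h0' : C β₀ ≠ 0 := left_ne_zero_of_mul h0
  have hinj := hC.inj h0'
  rw [Finset.Nat.mem_antidiagonalTuple] at hm
  set O := univ.image (fun τ : Equiv.Perm (Fin n) => β₀ ∘ τ) with hO
  have hsub : O ⊆ Finset.Nat.antidiagonalTuple n N := by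
    intro β hβ
    obtain ⟨τ, -, rfl⟩ := mem_image.mp hβ
    rw [Finset.Nat.mem_antidiagonalTuple, ← hm]
    exact Equiv.sum_comp τ β₀
  have hO' : ∀ g : (Fin n → ℕ) → ℤ, Anti g →
      ∑ β ∈ O, C β * g β = n.factorial * (C β₀ * g β₀) := by
    intro g hg
    rw [hO, sum_image]
    · have : ∀ τ : Equiv.Perm (Fin n), C (β₀ ∘ τ) * g (β₀ ∘ τ) = C β₀ * g β₀ := by
        intro τ
        rw [hC, hg]
        have : (Equiv.Perm.sign τ : ℤ) * (Equiv.Perm.sign τ : ℤ) = 1 := by
          rw [← Units.val_mul, Int.units_mul_self]; rfl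
        linear_combination (C β₀ * g β₀) * this
      simp [this, Fintype.card_perm]
    · intro τ _ τ' _ h
      ext i
      exact congrArg Fin.val (hinj (congrFun h i))
  have h1 := sum_sdiff hsub (f := fun β => C β * C β)
  rw [hO' C hC, hs] at h1
  have h2 : 0 ≤ ∑ β ∈ Finset.Nat.antidiagonalTuple n N \ O, C β * C β :=
    sum_nonneg fun β _ => mul_self_nonneg _
  have h3 : 0 < C β₀ * C β₀ := mul_self_pos.mpr h0'
  have hp : (0 : ℤ) < n.factorial := by exact_mod_cast n.factorial_pos
  have h4 : C β₀ * C β₀ = 1 := by nlinarith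
  have h5 : ∑ β ∈ Finset.Nat.antidiagonalTuple n N \ O, C β * C β = 0 := by
    rw [h4] at h1; linarith
  rw [sum_eq_zero_iff_of_nonneg fun β _ => mul_self_nonneg _] at h5
  refine ⟨β₀, hinj, hm, Int.eq_one_or_neg_one_of_mul_eq_one h4, fun g hg => ?_⟩
  rw [← sum_sdiff hsub, hO' g hg, sum_eq_zero, zero_add]
  intro β hβ
  rw [mul_self_eq_zero.mp (h5 β hβ), zero_mul]

theorem irr_char {d : ℕ} (hd : d ≤ n) {V : Type*} [AddCommGroup V] [Module ℂ V]
    [FiniteDimensional ℂ V] (ρ : Representation ℂ (Equiv.Perm (Fin d)) V) [ρ.IsIrreducible] :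
    ∃ (β₀ : Fin n → ℕ) (ε : ℤ), Injective β₀ ∧ ∑ i, β₀ i = n.choose 2 + d ∧ (ε = 1 ∨ ε = -1) ∧
      ∀ g, ρ.character g = (ε * Psi n g.partition.parts β₀ : ℤ) := by
  have hcard : (Nat.card (Equiv.Perm (Fin d)) : ℂ) = d.factorial := by
    rw [Nat.card_perm]; simp
  have hd0 : (d.factorial : ℂ) ≠ 0 := by exact_mod_cast d.factorial_ne_zero
  have hn0 : (n.factorial : ℂ) ≠ 0 := by exact_mod_cast n.factorial_ne_zero
  have : Invertible (Nat.card (Equiv.Perm (Fin d)) : ℂ) := invertibleOfNonzero (hcard ▸ hd0)
  have hclass : ∀ g h : Equiv.Perm (Fin d), h.partition.parts = g.partition.parts →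
      ρ.character h = ρ.character g := by
    intro g h e
    obtain ⟨c, hc⟩ := isConj_iff.mp
      (Equiv.Perm.partition_eq_of_isConj.mpr (Nat.Partition.ext e.symm))
    rw [← hc, Representation.char_conj]
  have hinv : ∀ g : Equiv.Perm (Fin d), ρ.character g⁻¹ = ρ.character g := by
    intro g
    apply hclass
    rw [Equiv.Perm.parts_partition, Equiv.Perm.parts_partition, Equiv.Perm.cycleType_inv,
      Equiv.Perm.support_inv]
  let C : (Fin n → ℕ) → ℤ := fun β => ∑ τ : Equiv.Perm (Fin n), (Equiv.Perm.sign τ : ℤ) *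
    (Module.finrank ℂ (Representation.IntertwiningMap ρ (permRep d (Fin.val ∘ τ) β)) : ℤ)
  have hC : ∀ β, (C β : ℂ) = (d.factorial : ℂ)⁻¹ *
      ∑ g : Equiv.Perm (Fin d), (Psi n g.partition.parts β : ℤ) * ρ.character g := by
    intro β
    simp only [C, Psi_eq]
    push_cast
    simp only [sum_mul]
    rw [sum_comm, mul_sum]
    refine sum_congr rfl fun τ _ => ?_
    rw [← Representation.card_inv_mul_sum_char_mul_char_eq_finrank, hcard]
    simp only [permRep_char, hinv, mul_sum]
    exact sum_congr rfl fun g _ => by ring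
  have hanti : Anti C := by
    intro τ β
    apply Int.cast_injective (α := ℂ)
    rw [Int.cast_mul, hC, hC]
    simp only [Psi_anti _ τ β, mul_sum]
    exact sum_congr rfl fun g _ => by push_cast; ring
  have hsum : ∀ g : Equiv.Perm (Fin d), g.partition.parts.sum = d := fun g => by
    rw [g.partition.parts_sum, Fintype.card_fin]
  have hE : ∀ g : Equiv.Perm (Fin d), ((∑ β ∈ Finset.Nat.antidiagonalTuple n (n.choose 2 + d),
      C β * Psi n g.partition.parts β : ℤ) : ℂ) = n.factorial * ρ.character g := by
    intro g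
    push_cast
    simp only [hC, mul_sum, sum_mul]
    rw [sum_comm]
    have : ∀ h : Equiv.Perm (Fin d), ∑ β ∈ Finset.Nat.antidiagonalTuple n (n.choose 2 + d),
        (d.factorial : ℂ)⁻¹ * ((Psi n h.partition.parts β : ℤ) * ρ.character h) *
          (Psi n g.partition.parts β : ℤ) =
        if h.partition.parts = g.partition.parts then (d.factorial : ℂ)⁻¹ * ρ.character g *
          (zz g.partition.parts * n.factorial) else 0 := by
      intro h
      have o := orth (n := n) h.partition.parts g.partition.parts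
        (fun x hx => h.partition.parts_pos hx) (fun x hx => g.partition.parts_pos hx)
        (by rw [hsum, hsum]) (by rw [hsum]; exact hd)
      rw [hsum] at o
      have o' := congrArg (Int.cast : ℤ → ℂ) o
      push_cast at o'
      rw [show (∑ β ∈ Finset.Nat.antidiagonalTuple n (n.choose 2 + d),
        (d.factorial : ℂ)⁻¹ * ((Psi n h.partition.parts β : ℤ) * ρ.character h) *
          (Psi n g.partition.parts β : ℤ)) = (d.factorial : ℂ)⁻¹ * ρ.character h *
          ∑ β ∈ Finset.Nat.antidiagonalTuple n (n.choose 2 + d),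
            ((Psi n h.partition.parts β : ℤ) : ℂ) * (Psi n g.partition.parts β : ℤ) by
        rw [mul_sum]; exact sum_congr rfl fun _ _ => by ring, o']
      split_ifs with e
      · rw [hclass g h e, e]
      · simp
    simp only [this]
    rw [← sum_filter, sum_const, nsmul_eq_mul]
    have cc := congrArg (Nat.cast : ℕ → ℂ) (card_class g)
    push_cast at cc
    field_simp
    linear_combination (ρ.character g) * cc
  have hP : ∑ β ∈ Finset.Nat.antidiagonalTuple n (n.choose 2 + d), C β * C β = n.factorial := by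
    apply Int.cast_injective (α := ℂ)
    have o := Representation.char_orthonormal ρ ρ
    rw [if_pos ⟨Representation.Equiv.refl ρ⟩, hcard] at o
    simp only [hinv] at o
    have : ((∑ β ∈ Finset.Nat.antidiagonalTuple n (n.choose 2 + d), C β * C β : ℤ) : ℂ) =
        (d.factorial : ℂ)⁻¹ * ∑ g : Equiv.Perm (Fin d), ρ.character g *
          ((∑ β ∈ Finset.Nat.antidiagonalTuple n (n.choose 2 + d),
          C β * Psi n g.partition.parts β : ℤ) : ℂ) := by
      push_cast
      conv_lhs => enter [2, β, 2]; rw [hC]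
      simp only [mul_sum]
      rw [sum_comm]
      exact sum_congr rfl fun g _ => sum_congr rfl fun β _ => by ring
    rw [this]
    simp only [hE]
    rw [show (∑ g : Equiv.Perm (Fin d), ρ.character g * (n.factorial * ρ.character g)) =
      n.factorial * ∑ g : Equiv.Perm (Fin d), ρ.character g * ρ.character g by
        rw [mul_sum]; exact sum_congr rfl fun _ _ => by ring]
    push_cast
    linear_combination (n.factorial : ℂ) * o
  obtain ⟨β₀, h1, h2, h3, h4⟩ := one_orbit C hanti _ hP
  refine ⟨β₀, C β₀, h1, h2, h3, fun g => ?_⟩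
  have := hE g
  rw [h4 _ (Psi_anti _)] at this
  push_cast at this ⊢
  exact (mul_left_cancel₀ hn0 this).symm

end Pool.Agent.MP_f0a921_al

end
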