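import Pool.Agent.MP_f0a921_al.NumDef

section

/-! Kernel evaluation of a numerical checker. -/

namespace Pool.Agent.MP_f0a921_al

theorem numJ_20 : allB 32 (fun i => Jd (20 + i)) = true := by decide +kernel

theorem numJ_52 : allB 16 (fun i => Jd (52 + i)) = true := by decide +kernel

theorem numJ_68 : allB 16 (fun i => Jd (68 + i)) = true := by decide +kernel

theorem numJ (d : ℕ) (h1 : 20 ≤ d) (h2 : d ≤ 83) : Jd d = true := by
  by_cases h : d < 52
  · have := allB_iff numJ_20 (d - 20) (by omega)
    rwa [show 20 + (d - 20) = d by omega] at this
  by_cases h : d < 68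
  · have := allB_iff numJ_52 (d - 52) (by omega)
    rwa [show 52 + (d - 52) = d by omega] at this
  have := allB_iff numJ_68 (d - 68) (by omega)
  rwa [show 68 + (d - 68) = d by omega] at this

end Pool.Agent.MP_f0a921_al

end

section

/-! Kernel evaluation of a numerical checker. -/

namespace Pool.Agent.MP_f0a921_al

theorem numU3_514 : allB 37 (fun i => Ud (514 + i)) = true := by decide +kernel

theorem numU3_551 : allB 37 (fun i => Ud (551 + i)) = true := by decide +kernel

theorem numU3_588 : allB 37 (fun i => Ud (588 + i)) = true := by decide +kernel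

theorem numU3 (d : ℕ) (h1 : 514 ≤ d) (h2 : d ≤ 624) : Ud d = true := by
  by_cases h : d < 551
  · have := allB_iff numU3_514 (d - 514) (by omega)
    rwa [show 514 + (d - 514) = d by omega] at this
  by_cases h : d < 588
  · have := allB_iff numU3_551 (d - 551) (by omega)
    rwa [show 551 + (d - 551) = d by omega] at this
  have := allB_iff numU3_588 (d - 588) (by omega)
  rwa [show 588 + (d - 588) = d by omega] at this

end Pool.Agent.MP_f0a921_al

end
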