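import Pool.Agent.MP_f0a921_al.ExT2
import Pool.Agent.Mg.Ff0a921p.G4ee67a
import Pool.Agent.Mg.Ff0a921p.Gfe8276
import Pool.Agent.Mg.Ff0a921p.G5198d1
import Pool.Agent.Mg.Ff0a921p.G38efd9

section

/-! Kernel evaluation of the character table checker. -/

namespace Pool.Agent.MP_f0a921_al

theorem fchkA18 : fchk tbA 18 = true := by decide +kernel

end Pool.Agent.MP_f0a921_al

end

section

/-! Partitions far from the trivial and the sign character; the base of the induction. -/

namespace Pool.Agent.MP_f0a921_al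
open Finset Function

theorem goodA : ∀ e ≤ 18, Good tbA 2 e := by
  refine good_all (by omega) (by omega) tbA_zero fun e h0 h => ?_
  by_cases h1 : e ≤ 15
  · have := allB_iff tchkA1 (e - 1) (by omega)
    rwa [show e - 1 + 1 = e by omega] at this
  obtain rfl | rfl | rfl : e = 16 ∨ e = 17 ∨ e = 18 := by omega
  exacts [tchkA16, tchkA17, tchkA18]

theorem goodB : ∀ e ≤ 9, Good tbB 1 e := by
  refine good_all (by omega) (by omega) tbB_zero fun e h0 h => ?_
  have := allB_iff tchkB (e - 1) (by omega)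
  rwa [show e - 1 + 1 = e by omega] at this

theorem fchkA {d : ℕ} (h0 : 10 ≤ d) (h : d ≤ 19) : fchk tbA d = true := by
  by_cases h1 : d ≤ 15
  · have := allB_iff fchkA1 (d - 10) (by omega)
    rwa [show 10 + (d - 10) = d by omega] at this
  obtain rfl | rfl | rfl | rfl : d = 16 ∨ d = 17 ∨ d = 18 ∨ d = 19 := by omega
  exacts [fchkA16, fchkA17, fchkA18, fchkA19]

theorem cast_lt {v f : ℤ} (hf : 0 ≤ f) {D N : ℕ} (h : v.natAbs * D < N * f.toNat) :
    |v| * D < N * f := by
  have : ((v.natAbs * D : ℕ) : ℤ) < (N * f.toNat : ℕ) := by exact_mod_cast h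
  rwa [Nat.cast_mul, Nat.cast_mul, Int.natCast_natAbs, Int.toNat_of_nonneg hf] at this

/-- the weaker bound available for the excluded classes -/
def Exc (d : ℕ) (μ : Multiset ℕ) (X : Finset ℕ) : Prop :=
  μ.count 1 = 1 ∧ μ.count 2 ≤ 1 ∧ 1 + 2 * μ.count 2 + 3 * μ.count 3 = d ∧ |chi μ X| * d < dm d X

variable {X : Finset ℕ} {d : ℕ} {μ : Multiset ℕ}

theorem deep_small (hd : 10 ≤ d) (hd' : d ≤ 19) (hw : Wt X d) (hB : Box X (d - 4) (d - 4))
    (hμ : ∀ r ∈ μ, 0 < r) (hs : μ.sum = d) (h1 : μ.count 1 ≤ 1)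
    (h2 : μ.count 1 = 0 → 2 * μ.count 2 ≠ d) : Tg d μ X ∨ Exc d μ X := by
  obtain ⟨Y, hY, hsim⟩ := exists_sim hB (m := 19) (by omega)
  have e1 := hsim.1 μ hμ
  have e2 : dm d X = dm d Y := hsim.1 _ (ones_pos d)
  have c := fchk_spec (by omega) hd' (fun i hi => goodA i (by omega)) hY ((hsim.2.1 _).mp hw)
    ((hsim.2.2 _ _).mp hB) (fchkA hd hd')
  unfold Tg Exc
  rw [e1, e2]
  obtain ⟨ρ, b1, b2⟩ := split_ones hμ
  obtain h | h : μ.count 1 = 0 ∨ μ.count 1 = 1 := by omega
  · rw [h, Multiset.replicate_zero, zero_add] at b2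
    obtain ⟨l, hl, rfl⟩ := En_complete (r := 2) (by omega) (b2 ▸ b1) hs
    have := c.1 l hl
    simp only [P0, Bool.or_eq_true, Nat.blt_eq, Nat.beq_eq] at this
    have h3 := this.resolve_right (by simpa using h2 h)
    left
    rw [h]
    exact cast_lt (dm_nonneg _ _) (D := d - 1) (N := 1) (by simpa using h3)
  · rw [h, Multiset.replicate_one, Multiset.singleton_add] at b2
    obtain ⟨l, hl, rfl⟩ := En_complete (r := 2) (e := d - 1) (by omega) b1
      (by rw [b2, Multiset.sum_cons] at hs; omega)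
    have := c.2 l hl
    have e3 : μ.count 2 = l.count 2 := by rw [b2]; simp
    have e4 : μ.count 3 = l.count 3 := by rw [b2]; simp
    simp only [P1, Bool.or_eq_true, Bool.and_eq_true, Nat.blt_eq, Nat.beq_eq, Nat.ble_eq,
      ← e3, ← e4, ← Multiset.cons_coe, ← b2] at this
    rw [h]
    rcases this with h3 | h3
    · exact Or.inl (cast_lt (dm_nonneg _ _) h3)
    · refine Or.inr ⟨rfl, h3.1.1, h3.1.2, ?_⟩
      simpa using cast_lt (dm_nonneg d Y) (D := d) (N := 1) (by simpa using h3.2)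

theorem deep (hd : 10 ≤ d) (hw : Wt X d) (hB : Box X (d - 4) (d - 4))
    (hμ : ∀ r ∈ μ, 0 < r) (hs : μ.sum = d) (h1 : μ.count 1 ≤ 1)
    (h2 : μ.count 1 = 0 → 2 * μ.count 2 ≠ d) : Tg d μ X ∨ Exc d μ X := by
  by_cases hd' : d ≤ 19
  · exact deep_small hd hd' hw hB hμ hs h1 h2
  left
  obtain ⟨Y, Y', a, hr, hY, hwY, ht, hb⟩ := reduce hw (by omega)
  obtain ⟨k, rfl, hk⟩ := hr.wt' hwY
  have := (hb _).mp hB
  suffices Tg (a + k) μ Y by
    unfold Tg at *
    rwa [ht.abs hμ, ht.dm]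
  by_cases c1 : a + k ≤ 83
  · exact J_sound hr hk hY hμ hs h1 h2 (by omega) c1 (numJ _ (by omega) c1)
  by_cases c2 : k = 4
  · subst c2
    exact four_sound hr hk hY hμ hs h1 (by omega)
  by_cases c3 : a + k ≤ 363
  · exact U_sound hr hk hY hμ hs h1 (by omega) (numU1 _ (by omega) c3)
  by_cases c4 : a + k ≤ 513
  · exact U_sound hr hk hY hμ hs h1 (by omega) (numU2 _ (by omega) c4)
  by_cases c5 : a + k ≤ 624
  · exact U_sound hr hk hY hμ hs h1 (by omega) (numU3 _ (by omega) c5)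
  exact big_sound hr hk hY hμ hs h1 (by omega) (by omega)

/-- the inductive claim for classes with at least two fixed points -/
def SS (d : ℕ) : Prop := ∀ (X : Finset ℕ) (μ : Multiset ℕ), Wt X d → Box X (d - 2) (d - 2) →
  (∀ r ∈ μ, 0 < r) → μ.sum = d → 2 ≤ μ.count 1 → μ.count 1 ≠ d →
  if μ.count 1 = 2 ∧ 2 + 2 * μ.count 2 = d then |chi μ X| * d < 2 * dm d X
  else |chi μ X| * (d - 1) < (μ.count 1 - 1) * dm d X

theorem SS_ten : SS 10 := by
  intro X μ hw hB hμ hs h1 h2
  obtain ⟨Y, hY, hsim⟩ := exists_sim hB (m := 19) (by omega)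
  have e1 := hsim.1 μ hμ
  have e2 : dm 10 X = dm 10 Y := hsim.1 _ (ones_pos 10)
  have c := bchk_spec (fun i hi => goodB i (by omega)) hY ((hsim.2.1 _).mp hw)
    ((hsim.2.2 _ _).mp hB) bchkB
  rw [e1, e2]
  obtain ⟨l, hl, rfl⟩ := En_complete (r := 1) le_rfl hμ hs
  have := c l hl
  simp only [Multiset.coe_count] at h1 h2 ⊢
  simp only [P2, Bool.or_eq_true, Nat.blt_eq, Nat.beq_eq, Bool.cond_eq_ite, Bool.and_eq_true,
    Bool.ite_eq_true_distrib] at this
  have h3 := this.resolve_left (by omega)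
  split_ifs with h
  · rw [if_pos (by omega)] at h3
    exact cast_lt (dm_nonneg _ _) h3
  · rw [if_neg (by omega)] at h3
    have := cast_lt (dm_nonneg _ _) h3
    rw [Nat.cast_sub (by omega)] at this
    exact this

end Pool.Agent.MP_f0a921_al

end

section

/-! The three bounds for bead sets. -/

namespace Pool.Agent.MP_f0a921_al
open Finset Function

/-- the character of `X` is the polynomial `v` in the cycle counts, up to the sign character -/
def Is (v : List ℤ) (d : ℕ) (X : Finset ℕ) : Prop :=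
  (∀ μ : Multiset ℕ, (∀ r ∈ μ, 0 < r) → μ.sum = d → chi μ X = PV v μ) ∨
    ∀ μ : Multiset ℕ, (∀ r ∈ μ, 0 < r) → μ.sum = d → chi μ X = sm μ * PV v μ

variable {X : Finset ℕ} {d : ℕ} {μ : Multiset ℕ}

theorem lev (hw : Wt X d) (hd : 4 ≤ d) : Box X (d - 4) (d - 4) ∨
    (Is [1, 0, 0, 0, 0, 0, 0] d X ∧ ¬ Box X (d - 1) (d - 1)) ∨
    (Is [-1, 1, 0, 0, 0, 0, 0] d X ∧ ¬ Box X (d - 2) (d - 2)) ∨
    (Box X (d - 2) (d - 2) ∧ (Is [0, -1, 1, 1, 0, 0, 0] d X ∨ Is [1, -1, 1, -1, 0, 0, 0] d X ∨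
      Is [0, 0, -1, -1, 1, 1, 1] d X ∨ Is [0, 1, -2, 0, 2, 0, -1] d X ∨
      Is [-1, 1, -1, 1, 1, -1, 1] d X)) := by
  by_cases hB : Box X (d - 4) (d - 4)
  · exact Or.inl hB
  right
  obtain ⟨p, hp, h1, h2⟩ := levels hw (by omega) hB
  simp only [LV, List.mem_cons, List.not_mem_nil, or_false] at hp
  rcases hp with rfl | rfl | rfl | rfl | rfl | rfl | rfl <;> simp only at h1
  · exact Or.inl ⟨h2, by rw [h1]; omega⟩
  · exact Or.inr (Or.inl ⟨h2, by rw [h1]; omega⟩)
  · exact Or.inr (Or.inr ⟨by rw [h1], Or.inl h2⟩)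
  · exact Or.inr (Or.inr ⟨by rw [h1], Or.inr (Or.inl h2)⟩)
  · exact Or.inr (Or.inr ⟨by rw [h1]; omega, Or.inr (Or.inr (Or.inl h2))⟩)
  · exact Or.inr (Or.inr ⟨by rw [h1]; omega, Or.inr (Or.inr (Or.inr (Or.inl h2)))⟩)
  · exact Or.inr (Or.inr ⟨by rw [h1]; omega, Or.inr (Or.inr (Or.inr (Or.inr h2)))⟩)

theorem choose_two_int (d : ℕ) : 2 * (d.choose 2 : ℤ) = d * (d - 1) := by
  induction d with
  | zero => rfl
  | succ d ih => rw [Nat.choose_succ_succ', Nat.choose_one_right]; push_cast; linarith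

theorem choose_three_int (d : ℕ) : 6 * (d.choose 3 : ℤ) = d * (d - 1) * (d - 2) := by
  induction d with
  | zero => rfl
  | succ d ih =>
    have := choose_two_int d
    rw [Nat.choose_succ_succ']; push_cast; linarith

theorem Is.vals {v : List ℤ} (h : Is v d X) (hμ : ∀ r ∈ μ, 0 < r) (hs : μ.sum = d) :
    |chi μ X| = |PV v μ| ∧ 6 * dm d X = 6 * v.getD 0 0 + 6 * d * v.getD 1 0 +
      3 * (d * (d - 1)) * v.getD 2 0 + d * (d - 1) * (d - 2) * v.getD 4 0 := by
  have h1 : dm d X = PV v (Multiset.replicate d 1) := by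
    rcases h with h | h
    · exact h _ (ones_pos d) (by simp)
    · rw [dm, h _ (ones_pos d) (by simp), sm_ones, one_mul]
  constructor
  · rcases h with h | h
    · rw [h μ hμ hs]
    · rw [h μ hμ hs]; rcases sm_sq μ with e | e <;> simp [e]
  · rw [h1, ← choose_three_int, ← choose_two_int]
    simp only [PV, Multiset.count_replicate]
    norm_num
    ring

theorem counts (hμ : ∀ r ∈ μ, 0 < r) : ∃ R, μ.sum = μ.count 1 + 2 * μ.count 2 + 3 * μ.count 3 + R ∧
    (R = 0 ∨ 4 ≤ R) ∧ (R = 0 → μ = Multiset.replicate (μ.count 1) 1 +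
      Multiset.replicate (μ.count 2) 2 + Multiset.replicate (μ.count 3) 3) := by
  have e : μ = Multiset.replicate (μ.count 1) 1 + Multiset.replicate (μ.count 2) 2 +
      Multiset.replicate (μ.count 3) 3 + μ.filter (4 ≤ ·) := by
    ext x
    simp only [Multiset.count_add, Multiset.count_replicate, Multiset.count_filter]
    rcases x with _ | _ | _ | _ | x
    · simpa using fun h => lt_irrefl _ (hμ 0 h)
    all_goals simp
  have h1 := card_mul_le (p := 4) (ρ := μ.filter (4 ≤ ·)) fun r hr => (Multiset.mem_filter.mp hr).2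
  have h2 := congrArg Multiset.sum e
  simp only [Multiset.sum_add, Multiset.sum_replicate, smul_eq_mul] at h2
  refine ⟨(μ.filter (4 ≤ ·)).sum, by omega, by
    by_cases h : μ.filter (4 ≤ ·) = 0
    · simp [h]
    · have := Multiset.card_pos.mpr h; omega, fun h => ?_⟩
  rw [Multiset.card_eq_zero.mp (show (μ.filter (4 ≤ ·)).card = 0 by omega), add_zero] at e
  exact e

theorem aux {x f c B D N F : ℤ} (hc : 0 < c) (hD : 0 ≤ D) (h1 : c * x ≤ B) (h2 : -(c * x) ≤ B)
    (hf : 6 * f = F) (h : 6 * (B * D) < c * (N * F)) : |x| * D < N * f := by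
  have : c * |x| ≤ B := by
    rcases abs_cases x with e | e <;> rw [e.1] <;> linarith
  have := mul_le_mul_of_nonneg_right this hD
  subst hf
  nlinarith

section
variable (hμ : ∀ r ∈ μ, 0 < r) (hs : μ.sum = d)
include hμ hs

theorem lev_zero (h : μ.count 1 = 0) {v : List ℤ} (hv : Is v d X) : |chi μ X| =
    |v.getD 0 0 + μ.count 2 * v.getD 3 0 + μ.count 3 * v.getD 6 0| := by
  rw [(hv.vals hμ hs).1, PV, h]; simp

theorem lev_one (h : μ.count 1 = 1) {v : List ℤ} (hv : Is v d X) : |chi μ X| =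
    |v.getD 0 0 + v.getD 1 0 + μ.count 2 * (v.getD 3 0 + v.getD 5 0) + μ.count 3 * v.getD 6 0| := by
  rw [(hv.vals hμ hs).1, PV, h]
  congr 1
  simp [Nat.choose]; ring

theorem weak (hd : 10 ≤ d) (hw : Wt X d) (hB : Box X (d - 1) (d - 1)) (h : μ.count 1 = 1) :
    |chi μ X| * d < 1 * dm d X ∨ (1 + 2 * μ.count 2 = d ∧ |chi μ X| * (d + 1) < 2 * dm d X) := by
  obtain ⟨R, c1, c2, -⟩ := counts hμ
  rw [hs, h] at c1
  have p := dm_pos hw
  have p' := abs_nonneg (chi μ X)
  obtain ⟨e, rfl⟩ : ∃ e, d = e + 10 := ⟨d - 10, by omega⟩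
  have q : (0 : ℤ) ≤ e := Nat.cast_nonneg e
  have q2 := mul_nonneg q q
  have q3 := mul_nonneg q q2
  rcases lev hw (by omega) with hb | ⟨-, hb⟩ | ⟨hv, -⟩ | ⟨-, hv⟩
  · rcases deep hd hw hb hμ hs h.le (by omega) with t | t
    · unfold Tg tN tD at t
      rw [h, if_neg one_ne_zero, if_neg one_ne_zero] at t
      simp only [show e + 10 - 1 = e + 9 by omega, show e + 10 - 2 = e + 8 by omega,
        show e + 10 - 3 = e + 7 by omega] at t
      split_ifs at t with h0
      · left; push_cast at t ⊢; nlinarith [mul_nonneg p' q, mul_nonneg p' q2]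
      · by_cases h2 : 1 + 2 * μ.count 2 = e + 10
        · refine Or.inr ⟨h2, ?_⟩
          have : ((2 * μ.count 2 : ℕ) : ℤ) = e + 9 := by omega
          rw [this] at t
          push_cast at t ⊢
          have : |chi μ X| * (e + 8) < dm (e + 10) X :=
            lt_of_mul_lt_mul_left (a := (e : ℤ) + 9) (by linarith) (by linarith)
          nlinarith [mul_nonneg p' q]
        · left
          have : ((2 * μ.count 2 : ℕ) : ℤ) ≤ e + 6 := by omega
          have := mul_le_mul_of_nonneg_right this p.le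
          push_cast at t this ⊢
          apply lt_of_mul_lt_mul_left (a := (e : ℤ) + 6) _ (by linarith)
          nlinarith [mul_nonneg p' q]
    · left; rw [one_mul]; exact t.2.2.2
  · exact absurd hB hb
  · left; rw [lev_one hμ hs h hv]; simpa using p
  have hv' := fun {v} (hv : Is v (e + 10) X) => And.intro (lev_one hμ hs h hv) (hv.vals hμ hs).2
  rcases hv with hv | hv | hv | hv | hv <;> obtain ⟨a1, a2⟩ := hv' hv <;>
    simp only [List.getD_cons_succ, List.getD_cons_zero] at a1 a2 <;> rw [a1] <;> push_cast at a2 ⊢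
  · by_cases h2 : 1 + 2 * μ.count 2 = e + 10
    · exact Or.inr ⟨h2, aux (c := 2) (B := e + 7) (by omega) (by omega) (by omega) (by omega) a2
        (by nlinarith)⟩
    · exact Or.inl (aux (c := 2) (B := e + 4) (by omega) (by omega) (by omega) (by omega) a2
        (by nlinarith))
  · by_cases h2 : 1 + 2 * μ.count 2 = e + 10
    · exact Or.inr ⟨h2, aux (c := 2) (B := e + 9) (by omega) (by omega) (by omega) (by omega) a2
        (by nlinarith)⟩
    · exact Or.inl (aux (c := 2) (B := e + 6) (by omega) (by omega) (by omega) (by omega) a2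
        (by nlinarith))
  all_goals exact Or.inl (aux (c := 3) (B := e + 9) (by omega) (by omega) (by omega) (by omega) a2
        (by nlinarith))

end

theorem branch {n : ℕ} (hw : Wt X (n + 1)) {ν : Multiset ℕ} {D N : ℤ} (hD : 0 ≤ D)
    (h : ∀ b ∈ X, 1 ≤ b → b - 1 ∉ X → |chi ν (mv X b 1)| * D < N * dm n (mv X b 1)) :
    |chi (1 ::ₘ ν) X| * D < N * dm (n + 1) X := by
  have p := dm_pos hw
  rw [dm_succ, Ub_one, ← sum_filter] at p ⊢
  rw [chi_cons one_pos, Ub_one, ← sum_filter]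
  refine (mul_le_mul_of_nonneg_right (abs_sum_le_sum_abs _ _) hD).trans_lt ?_
  rw [sum_mul, mul_sum]
  refine sum_lt_sum_of_nonempty (nonempty_of_sum_ne_zero p.ne') fun b hb => ?_
  rw [mem_filter] at hb
  exact h b hb.1 hb.2.1 hb.2.2

theorem count_one_le (μ : Multiset ℕ) : μ.count 1 ≤ μ.sum := by simpa using mul_count_le 1 μ

theorem SS_succ {n : ℕ} (hn : 10 ≤ n) (ih : SS n) : SS (n + 1) := by
  intro X μ hw hB hμ hs h1 h2
  obtain ⟨ν, rfl⟩ := Multiset.exists_cons_of_mem (Multiset.count_pos.mp (by omega : 0 < μ.count 1))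
  have hν : ∀ r ∈ ν, 0 < r := fun x hx => hμ x (Multiset.mem_cons_of_mem hx)
  rw [Multiset.sum_cons] at hs
  have hs' : ν.sum = n := by omega
  rw [Multiset.count_cons_self] at h1 h2 ⊢
  rw [Multiset.count_cons_of_ne (by decide)]
  have q : (10 : ℤ) ≤ n := by exact_mod_cast hn
  have mvW : ∀ b ∈ X, 1 ≤ b → b - 1 ∉ X → Wt (mv X b 1) n ∧ Box (mv X b 1) (n - 1) (n - 1) :=
    fun b hb a1 a2 => ⟨(hw.mv hb a1 a2).2, hB.mv hb a2⟩
  split_ifs with hc
  · refine branch hw (by positivity) fun b hb a1 a2 => ?_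
    obtain ⟨w1, w2⟩ := mvW b hb a1 a2
    have := abs_nonneg (chi ν (mv X b 1))
    push_cast
    rcases weak hν hs' hn w1 w2 (by omega) with t | t
    · nlinarith
    · exact t.2
  · refine branch hw (by push_cast; linarith) fun b hb a1 a2 => ?_
    obtain ⟨w1, w2⟩ := mvW b hb a1 a2
    push_cast
    rw [add_sub_cancel_right, add_sub_cancel_right]
    by_cases h3 : ν.count 1 = 1
    · rcases weak hν hs' hn w1 w2 h3 with t | t
      · rw [h3]; exact t
      · exact absurd ⟨by omega, by omega⟩ hc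
    have h4 := count_one_le ν
    have key : Box (mv X b 1) (n - 2) (n - 2) →
        |chi ν (mv X b 1)| * n < ν.count 1 * dm n (mv X b 1) := by
      intro w3
      have := ih _ ν w1 w3 hν hs' (by omega) (by omega)
      split_ifs at this with h5
      · rw [h5.1]; exact this
      · have := hs' ▸ chi_abs_le hν (mv X b 1)
        linarith
    rcases lev w1 (by omega) with hb | ⟨-, hb⟩ | ⟨hv, -⟩ | ⟨hb, -⟩
    · exact key (hb.mono (by omega) (by omega))
    · exact absurd w2 hb
    · obtain ⟨b1, b2⟩ := hv.vals hν hs'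
      simp only [PV, List.getD_cons_succ, List.getD_cons_zero] at b1 b2
      have b3 : dm n (mv X b 1) = n - 1 := by linarith
      have b4 : (1 : ℤ) ≤ ν.count 1 := by omega
      have b5 : (ν.count 1 : ℤ) < n := by omega
      rw [b1, b3, abs_of_nonneg (by linarith)]
      nlinarith
    · exact key hb

theorem SS_all (hd : 10 ≤ d) : SS d := by
  induction d, hd using Nat.le_induction with
  | base => exact SS_ten
  | succ n hn ih => exact SS_succ hn ih

section
variable (hd : 10 ≤ d) (hw : Wt X d) (h0 : ¬ Is [1, 0, 0, 0, 0, 0, 0] d X)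
  (hμ : ∀ r ∈ μ, 0 < r) (hs : μ.sum = d)
include hd hw h0 hμ hs

theorem main_i (h1 : μ.count 1 ≠ 1) (h2 : μ.count 1 ≠ d) (h3 : 2 * μ.count 2 ≠ d)
    (h4 : ¬ (μ.count 1 = 2 ∧ 2 + 2 * μ.count 2 = d)) :
    Is [-1, 1, 0, 0, 0, 0, 0] d X ∨ |chi μ X| * (d - 1) < |(μ.count 1 : ℤ) - 1| * dm d X := by
  by_cases h : 2 ≤ μ.count 1
  · have key : Box X (d - 2) (d - 2) →
        |chi μ X| * (d - 1) < |(μ.count 1 : ℤ) - 1| * dm d X := fun hb => by
      have := SS_all hd X μ hw hb hμ hs h h2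
      rw [if_neg h4] at this
      rwa [abs_of_nonneg (a := (μ.count 1 : ℤ) - 1) (by omega)]
    rcases lev hw (by omega) with hb | ⟨hv, -⟩ | ⟨hv, -⟩ | ⟨hb, -⟩
    · exact Or.inr (key (hb.mono (by omega) (by omega)))
    · exact absurd hv h0
    · exact Or.inl hv
    · exact Or.inr (key hb)
  have h : μ.count 1 = 0 := by omega
  obtain ⟨R, c1, c2, -⟩ := counts hμ
  rw [hs, h] at c1
  rw [h, show |((0 : ℕ) : ℤ) - 1| = 1 from rfl]
  rcases lev hw (by omega) with hb | ⟨hv, -⟩ | ⟨hv, -⟩ | ⟨-, hv⟩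
  · right
    rcases deep hd hw hb hμ hs (by omega) (fun _ => h3) with t | t
    · unfold Tg tN tD at t
      rwa [h, if_pos rfl, if_pos rfl, Nat.cast_sub (by omega)] at t
    · have := t.1; omega
  · exact absurd hv h0
  · exact Or.inl hv
  right
  obtain ⟨e, rfl⟩ : ∃ e, d = e + 10 := ⟨d - 10, by omega⟩
  have q : (0 : ℤ) ≤ e := Nat.cast_nonneg e
  have q2 := mul_nonneg q q
  have q3 := mul_nonneg q q2
  have hv' := fun {v} (hv : Is v (e + 10) X) => And.intro (lev_zero hμ hs h hv) (hv.vals hμ hs).2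
  rcases hv with hv | hv | hv | hv | hv <;> obtain ⟨a1, a2⟩ := hv' hv <;>
    simp only [List.getD_cons_succ, List.getD_cons_zero] at a1 a2 <;> rw [a1] <;> push_cast at a2 ⊢
  · exact aux (c := 2) (B := e + 7) (by omega) (by omega) (by omega) (by omega) a2 (by nlinarith)
  · exact aux (c := 2) (B := e + 7) (by omega) (by omega) (by omega) (by omega) a2 (by nlinarith)
  · exact aux (c := 2) (B := e + 9) (by omega) (by omega) (by omega) (by omega) a2 (by nlinarith)
  · exact aux (c := 2) (B := e + 9) (by omega) (by omega) (by omega) (by omega) a2 (by nlinarith)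
  · exact aux (c := 2) (B := e + 9) (by omega) (by omega) (by omega) (by omega) a2 (by nlinarith)

theorem main_ii (h : μ.count 1 = 1) (h2 : 1 ≤ μ.count 2)
    (h3 : ¬ (μ.count 2 = 1 ∧ 3 + 3 * μ.count 3 = d)) :
    Is [1, -1, 1, -1, 0, 0, 0] d X ∨
      |chi μ X| * ((d - 1) * (d - 2)) < (2 * μ.count 2) * dm d X := by
  obtain ⟨R, c1, c2, -⟩ := counts hμ
  rw [hs, h] at c1
  have p := dm_pos hw
  have h2' : (1 : ℤ) ≤ μ.count 2 := by omega
  rcases lev hw (by omega) with hb | ⟨hv, -⟩ | ⟨hv, -⟩ | ⟨-, hv⟩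
  · right
    rcases deep hd hw hb hμ hs (by omega) (by omega) with t | t
    · unfold Tg tN tD at t
      rw [h, if_neg one_ne_zero, if_neg one_ne_zero, if_neg (by omega), if_neg (by omega),
        Nat.cast_mul, Nat.cast_sub (by omega), Nat.cast_sub (by omega), Nat.cast_mul] at t
      exact t
    · have := t.2.1; have := t.2.2.1; omega
  · exact absurd hv h0
  · right; rw [lev_one hμ hs h hv]; simp only [List.getD_cons_succ, List.getD_cons_zero]
    norm_num; positivity
  obtain ⟨e, rfl⟩ : ∃ e, d = e + 10 := ⟨d - 10, by omega⟩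
  have q : (0 : ℤ) ≤ e := Nat.cast_nonneg e
  have q2 := mul_nonneg q q
  have q3 := mul_nonneg q q2
  have hD : (0 : ℤ) ≤ (e + 10 - 1) * (e + 10 - 2) := by nlinarith
  have hv' := fun {v} (hv : Is v (e + 10) X) => And.intro (lev_one hμ hs h hv) (hv.vals hμ hs).2
  rcases hv with hv | hv | hv
  · right
    obtain ⟨a1, a2⟩ := hv' hv
    simp only [List.getD_cons_succ, List.getD_cons_zero] at a1 a2
    rw [a1]; push_cast at a2 ⊢
    have : 2 * (μ.count 2 : ℤ) ≤ e + 9 := by omega
    exact aux (c := 1) (B := μ.count 2 - 1) (by omega) hD (by omega) (by omega) a2 (by nlinarith)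
  · exact Or.inl hv
  right
  obtain ⟨j, hj⟩ : ∃ j : ℕ, μ.count 2 = j + 1 := ⟨μ.count 2 - 1, by omega⟩
  have r : (0 : ℤ) ≤ j := Nat.cast_nonneg j
  have r1 := mul_nonneg r q
  have r2 := mul_nonneg r q2
  have r3 := mul_nonneg r q3
  rcases hv with hv | hv | hv <;> obtain ⟨a1, a2⟩ := hv' hv <;>
    simp only [List.getD_cons_succ, List.getD_cons_zero] at a1 a2 <;> rw [a1, hj] <;>
    push_cast at a2 ⊢ <;>
    exact aux (c := 3) (B := e + 5) (by omega) hD (by omega) (by omega) a2 (by nlinarith)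

theorem main_iii (h : μ.count 1 = 1) (h2 : μ.count 2 = 0) (h3 : 1 + 3 * μ.count 3 ≠ d) :
    Is [0, -1, 1, 1, 0, 0, 0] d X ∨ |chi μ X| * (d * (d - 3)) < 2 * dm d X := by
  obtain ⟨R, c1, c2, -⟩ := counts hμ
  rw [hs, h] at c1
  have p := dm_pos hw
  rcases lev hw (by omega) with hb | ⟨hv, -⟩ | ⟨hv, -⟩ | ⟨-, hv⟩
  · right
    rcases deep hd hw hb hμ hs (by omega) (by omega) with t | t
    · unfold Tg tN tD at t
      rw [h, if_neg one_ne_zero, if_neg one_ne_zero, if_pos h2, if_pos h2,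
        Nat.cast_mul, Nat.cast_sub (by omega)] at t
      exact t
    · have := t.2.2.1; omega
  · exact absurd hv h0
  · right; rw [lev_one hμ hs h hv]; simp only [List.getD_cons_succ, List.getD_cons_zero]
    norm_num; positivity
  obtain ⟨e, rfl⟩ : ∃ e, d = e + 10 := ⟨d - 10, by omega⟩
  have q : (0 : ℤ) ≤ e := Nat.cast_nonneg e
  have q2 := mul_nonneg q q
  have q3 := mul_nonneg q q2
  have hD : (0 : ℤ) ≤ (e + 10) * (e + 10 - 3) := by nlinarith
  have hv' := fun {v} (hv : Is v (e + 10) X) => And.intro (lev_one hμ hs h hv) (hv.vals hμ hs).2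
  rcases hv with hv | hv
  · exact Or.inl hv
  right
  rcases hv with hv | hv | hv | hv <;> obtain ⟨a1, a2⟩ := hv' hv <;>
    simp only [List.getD_cons_succ, List.getD_cons_zero] at a1 a2 <;> rw [a1] <;>
    push_cast at a2 ⊢
  · exact aux (c := 1) (B := 0) (by omega) hD (by omega) (by omega) a2 (by nlinarith)
  all_goals exact aux (c := 3) (B := e + 5) (by omega) hD (by omega) (by omega) a2 (by nlinarith)

end

end Pool.Agent.MP_f0a921_al

end

section

/-! Irreducible characters of the symmetric group in terms of bead sets. -/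

namespace Pool.Agent.MP_f0a921_al
open Finset Function

theorem sg_sq {n : ℕ} {β : Fin n → ℕ} (h : Injective β) : sg β * sg β = 1 := by
  unfold sg
  rw [← prod_mul_distrib]
  refine prod_eq_one fun i _ => ?_
  rw [← prod_mul_distrib]
  refine prod_eq_one fun j hj => ?_
  have : β j ≠ β i := fun e => (mem_Ioi.mp hj).ne' (h e)
  rcases lt_or_gt_of_ne this with h | h
  · rw [Int.sign_eq_neg_one_of_neg (by omega)]; rfl
  · rw [Int.sign_eq_one_of_pos (by omega)]; rfl

theorem sm_eq (μ : Multiset ℕ) : sm μ = (-1) ^ (μ.sum + μ.card) := by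
  induction μ using Multiset.induction_on with
  | empty => rfl
  | cons r μ ih =>
    unfold sm at *
    rw [Multiset.map_cons, Multiset.prod_cons, ih, Multiset.sum_cons, Multiset.card_cons,
      ← pow_add]
    congr 1; ring

variable {d : ℕ}

theorem sm_parts (g : Equiv.Perm (Fin d)) : sm g.partition.parts = (Equiv.Perm.sign g : ℤ) := by
  rw [Equiv.Perm.parts_partition, sm, Multiset.map_add, Multiset.prod_add, ← sm, ← sm, sm_ones,
    mul_one, sm_eq, Equiv.Perm.sign_of_cycleType]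
  simp

theorem parts_one : (1 : Equiv.Perm (Fin d)).partition.parts = Multiset.replicate d 1 := by
  simp [Equiv.Perm.parts_partition]

theorem parts_sum (g : Equiv.Perm (Fin d)) : g.partition.parts.sum = d := by
  rw [g.partition.parts_sum, Fintype.card_fin]

theorem count_one_ne {g : Equiv.Perm (Fin d)} (h : g ≠ 1) : g.partition.parts.count 1 ≠ d := by
  rw [Equiv.Perm.parts_partition, Multiset.count_add, Multiset.count_replicate_self,
    Multiset.count_eq_zero_of_notMem
      fun h => absurd (Equiv.Perm.one_lt_of_mem_cycleType h) (lt_irrefl _), Fintype.card_fin]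
  have h1 : 0 < g.support.card := card_pos.mpr (nonempty_iff_ne_empty.mpr
    fun e => h (Equiv.Perm.support_eq_empty_iff.mp e))
  have h2 : g.support.card ≤ d := by simpa using card_le_univ g.support
  omega

theorem irr_bead {V : Type*} [AddCommGroup V] [Module ℂ V] [FiniteDimensional ℂ V]
    (ρ : Representation ℂ (Equiv.Perm (Fin d)) V) [ρ.IsIrreducible] :
    ∃ X : Finset ℕ, Wt X d ∧ (Module.finrank ℂ V : ℤ) = dm d X ∧
      ∀ g, ρ.character g = (chi g.partition.parts X : ℤ) := by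
  obtain ⟨β, ε, h1, h2, h3, h4⟩ := irr_char (n := d) le_rfl ρ
  have hw : Wt (image β univ) d := by
    unfold Wt
    rw [sum_image fun i _ j _ e => h1 e, card_image_of_injective _ h1, card_univ,
      Fintype.card_fin, h2]
  have h5 := h4 1
  rw [Representation.char_one, Psi_eq_chi, parts_one] at h5
  have h6 : (Module.finrank ℂ V : ℤ) = ε * (sg β * dm d (image β univ)) := by
    exact_mod_cast h5
  have p := dm_pos hw
  have h7 : ε * sg β = 1 := by
    rcases h3 with rfl | rfl <;>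
      rcases Int.eq_one_or_neg_one_of_mul_eq_one (sg_sq h1) with e | e <;> rw [e] at h6 ⊢ <;> omega
  refine ⟨_, hw, by rw [h6, ← mul_assoc, h7, one_mul], fun g => ?_⟩
  rw [h4, Psi_eq_chi, ← mul_assoc, h7, one_mul]

end Pool.Agent.MP_f0a921_al

end
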